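import Pool.Agent.H15.SP.Cliff

/-! The alternating map `x₁, …, x_m ↦ x₁ ⋯ x_m s` modulo `K S`. -/

set_option autoImplicit false

namespace Pool.Agent.H15.SP

open Module

variable {U S : Type} [AddCommGroup U] [Module ℂ U] [AddCommGroup S] [Module ℂ S]
variable {c : U →ₗ[ℂ] Module.End ℂ S} {b : LinearMap.BilinForm ℂ U}

/-- the multilinear map `x₁, …, x_m ↦ x₁ ⋯ x_m s` modulo `K S` -/
noncomputable def mulMap (c : U →ₗ[ℂ] Module.End ℂ S) (K : Submodule ℂ U) (s : S) (m : ℕ) :
    MultilinearMap ℂ (fun _ : Fin m => U) (S ⧸ img c K) :=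
  (((img c K).mkQ.comp (LinearMap.applyₗ s : Module.End ℂ S →ₗ[ℂ] S))).compMultilinearMap
    ((MultilinearMap.mkPiAlgebraFin ℂ m (Module.End ℂ S)).compLinearMap (fun _ => c))

lemma mulMap_apply (K : Submodule ℂ U) (s : S) (m : ℕ) (v : Fin m → U) :
    mulMap c K s m v = (img c K).mkQ (lp c (List.ofFn v) s) := by
  simp [mulMap, lp, List.map_ofFn, Function.comp_def]

lemma list_split {α : Type} (l : List α) (i j : ℕ) (hij : i < j) (hj : j < l.length) (x : α)
    (hi' : l[i] = x) (hj' : l[j] = x) : ∃ l₁ l₂ l₃, l = l₁ ++ x :: (l₂ ++ x :: l₃) := by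
  have h1 : l = l.take i ++ x :: l.drop (i + 1) := by
    conv_lhs => rw [← List.take_append_drop i l, List.drop_eq_getElem_cons (by omega : i < l.length), hi']
  have h2 : x ∈ l.drop (i + 1) := by
    rw [List.mem_drop_iff_getElem]
    exact ⟨j - (i + 1), by omega, by rw [← hj']; congr 1; omega⟩
  obtain ⟨l₂, l₃, h3⟩ := List.append_of_mem h2
  exact ⟨l.take i, l₂, l₃, by rw [← h3]; exact h1⟩

/-- the alternating map -/
noncomputable def altMap [FiniteDimensional ℂ U] (h : Cl c b) (hb : ∀ x, (∀ y, b x y = 0) → x = 0) (K : Submodule ℂ U)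
    (s : S) (hs : s ∈ top c K) : AlternatingMap ℂ U (S ⧸ img c K) (Fin (finrank ℂ K)) where
  toMultilinearMap := mulMap c K s _
  map_eq_zero_of_eq' := by
    intro v i j hv hij
    show mulMap c K s _ v = 0
    rw [mulMap_apply]
    wlog hlt : i < j generalizing i j with H
    · exact H j i hv.symm hij.symm (lt_of_le_of_ne (not_lt.1 hlt) hij.symm)
    obtain ⟨l₁, l₂, l₃, hl⟩ := list_split (List.ofFn v) i j hlt (by simp) (v i) (by simp) (by simp [hv])
    have hlen : l₁.length + l₂.length + l₃.length + 2 = finrank ℂ K := by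
      have := congrArg List.length hl
      simp at this
      omega
    rw [hl, Submodule.mkQ_apply, Submodule.Quotient.mk_eq_zero]
    exact h.vanish hb hs (C_mono (by omega) (h.dup (v i) l₁ l₂ l₃))

lemma altMap_apply [FiniteDimensional ℂ U] (h : Cl c b) (hb : ∀ x, (∀ y, b x y = 0) → x = 0) (K : Submodule ℂ U)
    (s : S) (hs : s ∈ top c K) (v : Fin (finrank ℂ K) → U) :
    altMap h hb K s hs v = (img c K).mkQ (lp c (List.ofFn v) s) := mulMap_apply K s _ v

lemma altMap_kill [FiniteDimensional ℂ U] (h : Cl c b) (hb : ∀ x, (∀ y, b x y = 0) → x = 0) (K : Submodule ℂ U)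
    (s : S) (hs : s ∈ top c K) (v : Fin (finrank ℂ K) → U) (i : Fin (finrank ℂ K))
    (hi : ∀ x ∈ K, b x (v i) = 0) : altMap h hb K s hs v = 0 := by
  rw [altMap_apply, Submodule.mkQ_apply, Submodule.Quotient.mk_eq_zero]
  have hmem : v i ∈ List.ofFn v := by rw [List.mem_ofFn]; exact ⟨i, rfl⟩
  obtain ⟨l₁, l₂, hl⟩ := List.append_of_mem hmem
  have hlen : l₁.length + l₂.length + 1 = finrank ℂ K := by
    have := congrArg List.length hl
    simp at this
    omega
  rw [hl]
  exact h.kill hb hs hi l₁ l₂ (by omega)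

lemma altMap_congr [FiniteDimensional ℂ U] (h : Cl c b) (hb : ∀ x, (∀ y, b x y = 0) → x = 0) (K : Submodule ℂ U)
    (s : S) (hs : s ∈ top c K) (v w : Fin (finrank ℂ K) → U)
    (hi : ∀ i, ∀ x ∈ K, b x (v i - w i) = 0) : altMap h hb K s hs v = altMap h hb K s hs w := by
  have e : v = (fun i => v i - w i) + w := by funext i; simp
  have h1 : altMap h hb K s hs v = (altMap h hb K s hs).toMultilinearMap ((fun i => v i - w i) + w) := by
    rw [← e]; rfl
  rw [h1, MultilinearMap.map_add_univ, Finset.sum_eq_single ∅]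
  · simp
  · intro t _ ht
    obtain ⟨i, hit⟩ := Finset.nonempty_iff_ne_empty.2 ht
    refine altMap_kill h hb K s hs _ i ?_
    intro x hx
    rw [Finset.piecewise_eq_of_mem _ _ _ hit]
    exact hi i x hx
  · simp

/-- evaluation with a determinant -/
lemma altMap_det [FiniteDimensional ℂ U] (h : Cl c b) (hb : ∀ x, (∀ y, b x y = 0) → x = 0) (K : Submodule ℂ U)
    (s : S) (hs : s ∈ top c K) (e v : Fin (finrank ℂ K) → U) (A : Matrix (Fin (finrank ℂ K)) (Fin (finrank ℂ K)) ℂ)
    (hA : ∀ j, ∀ x ∈ K, b x (e j - ∑ k, A k j • v k) = 0) :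
    altMap h hb K s hs e = A.det • altMap h hb K s hs v := by
  rw [altMap_congr h hb K s hs e (fun j => ∑ k, A k j • v k) hA]
  -- pull back along `ℂ^m → U`
  let g : (Fin (finrank ℂ K) → ℂ) →ₗ[ℂ] U := Fintype.linearCombination ℂ v
  have hg : ∀ a, g a = ∑ k, a k • v k := fun a => by simp [g, Fintype.linearCombination_apply]
  rw [← sub_eq_zero, ← Module.forall_dual_apply_eq_zero_iff ℂ]
  intro ξ
  have h1 := ((ξ.compAlternatingMap (altMap h hb K s hs)).compLinearMap g).eq_smul_basis_det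
    (Pi.basisFun ℂ (Fin (finrank ℂ K)))
  have h2 := congrArg (fun F : AlternatingMap ℂ (Fin (finrank ℂ K) → ℂ) ℂ (Fin (finrank ℂ K)) =>
    F (fun j k => A k j)) h1
  simp only [AlternatingMap.compLinearMap_apply, AlternatingMap.smul_apply, LinearMap.compAlternatingMap_apply,
    hg, smul_eq_mul] at h2
  rw [map_sub, map_smul, h2, Pi.basisFun_det_apply, smul_eq_mul]
  have h3 : (fun i => ∑ k, (Pi.basisFun ℂ (Fin (finrank ℂ K))) i k • v k) = v := by
    funext i
    simp [Pi.single_apply, ite_smul]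
  rw [h3, ← Matrix.det_transpose A]
  have h4 : (Matrix.of fun j k => A k j) = A.transpose := rfl
  rw [h4]
  ring

end Pool.Agent.H15.SP
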