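import Mathlib

/-! Products of vectors in a Clifford module. -/

set_option autoImplicit false

namespace Pool.Agent.H15.SP

open Module

variable {U S : Type} [AddCommGroup U] [Module ℂ U] [AddCommGroup S] [Module ℂ S]

/-- product of a list of vectors -/
noncomputable def lp (c : U →ₗ[ℂ] Module.End ℂ S) (l : List U) : Module.End ℂ S := (l.map c).prod

/-- span of the products of lists of length `< k` -/
def C (c : U →ₗ[ℂ] Module.End ℂ S) (k : ℕ) : Submodule ℂ (Module.End ℂ S) :=
  Submodule.span ℂ {T | ∃ l : List U, l.length < k ∧ T = lp c l}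

variable {c : U →ₗ[ℂ] Module.End ℂ S} {b : LinearMap.BilinForm ℂ U}

@[simp] lemma lp_nil : lp c [] = 1 := rfl

@[simp] lemma lp_cons (x : U) (l : List U) : lp c (x :: l) = c x * lp c l := by simp [lp]

lemma lp_append (l l' : List U) : lp c (l ++ l') = lp c l * lp c l' := by simp [lp]

lemma lp_mem {k : ℕ} {l : List U} (h : l.length < k) : lp c l ∈ C c k := Submodule.subset_span ⟨l, h, rfl⟩

lemma C_mono {j k : ℕ} (h : j ≤ k) : C c j ≤ C c k :=
  Submodule.span_mono fun _ ⟨l, hl, e⟩ => ⟨l, by omega, e⟩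

lemma lp_mul_mem {k : ℕ} (l : List U) {T : Module.End ℂ S} (hT : T ∈ C c k) : lp c l * T ∈ C c (l.length + k) := by
  induction hT using Submodule.span_induction with
  | mem T hT =>
    obtain ⟨l', h, rfl⟩ := hT
    rw [← lp_append]
    exact lp_mem (by rw [List.length_append]; omega)
  | zero => simp
  | add x y _ _ hx hy => rw [mul_add]; exact Submodule.add_mem _ hx hy
  | smul a x _ hx => rw [mul_smul_comm]; exact Submodule.smul_mem _ _ hx

lemma mul_lp_mem {k : ℕ} (l : List U) {T : Module.End ℂ S} (hT : T ∈ C c k) : T * lp c l ∈ C c (k + l.length) := by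
  induction hT using Submodule.span_induction with
  | mem T hT =>
    obtain ⟨l', h, rfl⟩ := hT
    rw [← lp_append]
    exact lp_mem (by rw [List.length_append]; omega)
  | zero => simp
  | add x y _ _ hx hy => rw [add_mul]; exact Submodule.add_mem _ hx hy
  | smul a x _ hx => rw [smul_mul_assoc]; exact Submodule.smul_mem _ _ hx

/-- the Clifford relation -/
def Cl (c : U →ₗ[ℂ] Module.End ℂ S) (b : LinearMap.BilinForm ℂ U) : Prop :=
  (∀ x y, b x y = b y x) ∧ ∀ x, c x * c x = (b x x) • (1 : Module.End ℂ S)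

lemma Cl.swap (h : Cl c b) (x y : U) : c x * c y = (2 * b x y) • (1 : Module.End ℂ S) - c y * c x := by
  have h1 := h.2 (x + y)
  have h0 : b (x + y) (x + y) = b x x + b y y + 2 * b x y := by
    rw [map_add, map_add, LinearMap.add_apply, LinearMap.add_apply, h.1 y x]
    ring
  rw [h0, map_add, mul_add, add_mul, add_mul, h.2 x, h.2 y, add_smul, add_smul] at h1
  rw [eq_sub_iff_add_eq]
  have h2 : c x * c y + c y * c x = (b x x • (1 : Module.End ℂ S) + c y * c x + (c x * c y + b y y • 1)) -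
      (b x x) • 1 - (b y y) • 1 := by abel
  rw [h2, h1]
  abel

lemma Cl.comm_list (h : Cl c b) (x : U) (l : List U) :
    c x * lp c l - ((-1 : ℂ) ^ l.length) • (lp c l * c x) ∈ C c l.length := by
  induction l with
  | nil => simp
  | cons y l ih =>
    have e : c x * lp c (y :: l) - ((-1 : ℂ) ^ (y :: l).length) • (lp c (y :: l) * c x) =
        (2 * b x y) • lp c l - c y * (c x * lp c l - ((-1 : ℂ) ^ l.length) • (lp c l * c x)) := by
      rw [lp_cons, ← mul_assoc, h.swap x y, sub_mul, smul_mul_assoc, one_mul, List.length_cons, pow_succ, mul_sub,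
        mul_smul_comm, mul_neg_one, neg_smul, mul_assoc, mul_assoc]
      abel
    rw [e]
    refine Submodule.sub_mem _ (Submodule.smul_mem _ _ (lp_mem (by simp))) ?_
    have := lp_mul_mem (c := c) [y] ih
    simpa [Nat.add_comm] using this

lemma Cl.anti_list (h : Cl c b) (x : U) (l : List U) (hl : ∀ y ∈ l, b x y = 0) :
    c x * lp c l = ((-1 : ℂ) ^ l.length) • (lp c l * c x) := by
  induction l with
  | nil => simp
  | cons y l ih =>
    rw [lp_cons, ← mul_assoc, h.swap x y, hl y (by simp), mul_zero, zero_smul, zero_sub, neg_mul, mul_assoc,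
      ih (fun z hz => hl z (by simp [hz])), List.length_cons, pow_succ, mul_smul_comm, mul_neg_one, neg_smul,
      mul_assoc]

/-- the vectors killed by `K` -/
def top (c : U →ₗ[ℂ] Module.End ℂ S) (K : Submodule ℂ U) : Submodule ℂ S where
  carrier := {s | ∀ y ∈ K, c y s = 0}
  add_mem' := by
    intro s t hs ht y hy
    rw [map_add, hs y hy, ht y hy, add_zero]
  zero_mem' := by intro y _; simp
  smul_mem' := by
    intro a s hs y hy
    rw [map_smul, hs y hy, smul_zero]

/-- the span `K S` of the vectors `y s` with `y` in `K` -/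
def img (c : U →ₗ[ℂ] Module.End ℂ S) (K : Submodule ℂ U) : Submodule ℂ S :=
  Submodule.span ℂ {t | ∃ y ∈ K, ∃ s, t = c y s}

lemma mem_top {K : Submodule ℂ U} {s : S} : s ∈ top c K ↔ ∀ y ∈ K, c y s = 0 := Iff.rfl

lemma img_mem {K : Submodule ℂ U} {y : U} (hy : y ∈ K) (s : S) : c y s ∈ img c K :=
  Submodule.subset_span ⟨y, hy, s, rfl⟩

/-- the vanishing lemma -/
lemma Cl.vanish_list [FiniteDimensional ℂ U] (h : Cl c b) (hb : ∀ x, (∀ y, b x y = 0) → x = 0) {K : Submodule ℂ U}
    {s : S} (hs : s ∈ top c K) (l : List U) (hl : l.length < finrank ℂ K) : lp c l s ∈ img c K := by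
  -- a nonzero `y ∈ K` orthogonal to all elements of `l`
  obtain ⟨y, hyK, hy0, hy⟩ : ∃ y ∈ K, y ≠ 0 ∧ ∀ x ∈ l, b y x = 0 := by
    let g : K →ₗ[ℂ] (Fin l.length → ℂ) := LinearMap.pi fun i => (b.flip l[i]).comp K.subtype
    have hk : LinearMap.ker g ≠ ⊥ := by
      apply LinearMap.ker_ne_bot_of_finrank_lt
      simpa using hl
    obtain ⟨⟨y, hyK⟩, hy, hy0⟩ := (Submodule.ne_bot_iff _).1 hk
    refine ⟨y, hyK, fun e => hy0 (Subtype.ext e), ?_⟩
    intro x hx
    obtain ⟨i, hi, rfl⟩ := List.getElem_of_mem hx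
    have := congrFun (LinearMap.mem_ker.1 hy) ⟨i, hi⟩
    simpa [g] using this
  obtain ⟨z, hz⟩ : ∃ z, b y z ≠ 0 := by
    by_contra hcon
    push Not at hcon
    exact hy0 (hb y hcon)
  -- `s = c y (c z' s)` with `z' = z / (2 b y z)`
  have hs' : s = c y (c ((1 / (2 * b y z)) • z) s) := by
    have e := LinearMap.congr_fun (h.swap y ((1 / (2 * b y z)) • z)) s
    simp only [LinearMap.sub_apply, Module.End.mul_apply, LinearMap.smul_apply, Module.End.one_apply] at e
    rw [e, hs y hyK, map_zero, sub_zero, map_smul, smul_eq_mul]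
    have : 2 * (1 / (2 * b y z) * b y z) = 1 := by field_simp
    rw [this, one_smul]
  rw [hs', ← Module.End.mul_apply]
  have h1 : lp c l * c y = ((-1 : ℂ) ^ l.length) • (c y * lp c l) := by
    rw [h.anti_list y l hy, smul_smul, ← mul_pow]; simp
  rw [h1, LinearMap.smul_apply, Module.End.mul_apply]
  exact Submodule.smul_mem _ _ (img_mem hyK _)

lemma Cl.vanish [FiniteDimensional ℂ U] (h : Cl c b) (hb : ∀ x, (∀ y, b x y = 0) → x = 0) {K : Submodule ℂ U}
    {s : S} (hs : s ∈ top c K) {T : Module.End ℂ S} (hT : T ∈ C c (finrank ℂ K)) : T s ∈ img c K := by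
  induction hT using Submodule.span_induction with
  | mem T hT =>
    obtain ⟨l', h', rfl⟩ := hT
    exact h.vanish_list hb hs l' h'
  | zero => simp
  | add x y _ _ hx hy => rw [LinearMap.add_apply]; exact Submodule.add_mem _ hx hy
  | smul a x _ hx => rw [LinearMap.smul_apply]; exact Submodule.smul_mem _ _ hx

/-- two equal vectors in a product -/
lemma Cl.dup (h : Cl c b) (x : U) (l₁ l₂ l₃ : List U) :
    lp c (l₁ ++ x :: (l₂ ++ x :: l₃)) ∈ C c (l₁.length + l₂.length + l₃.length + 1) := by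
  have e : lp c (l₁ ++ x :: (l₂ ++ x :: l₃)) =
      ((-1 : ℂ) ^ l₂.length * b x x) • lp c (l₁ ++ l₂ ++ l₃) +
      lp c l₁ * ((c x * lp c l₂ - ((-1 : ℂ) ^ l₂.length) • (lp c l₂ * c x)) * lp c (x :: l₃)) := by
    rw [lp_append, lp_cons, lp_append, lp_cons, sub_mul, mul_sub, lp_append, lp_append]
    rw [smul_mul_assoc, mul_smul_comm, mul_assoc (lp c l₂) (c x), ← mul_assoc (c x) (c x) (lp c l₃), h.2 x,
      smul_mul_assoc, one_mul, mul_smul_comm, mul_smul_comm, smul_smul, ← mul_assoc (c x)]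
    rw [mul_assoc (lp c l₁) (lp c l₂) (lp c l₃)]
    abel
  rw [e]
  refine Submodule.add_mem _ (Submodule.smul_mem _ _ (lp_mem (by simp; omega))) ?_
  have h1 := mul_lp_mem (c := c) (x :: l₃) (h.comm_list x l₂)
  have h2 := lp_mul_mem (c := c) l₁ h1
  refine C_mono ?_ h2
  simp
  omega

lemma Cl.kill_top (h : Cl c b) {K : Submodule ℂ U} {y : U} (hy : ∀ x ∈ K, b x y = 0) {s : S} (hs : s ∈ top c K) :
    c y s ∈ top c K := by
  intro x hx
  have e := LinearMap.congr_fun (h.swap x y) s
  simp only [LinearMap.sub_apply, Module.End.mul_apply, LinearMap.smul_apply, Module.End.one_apply] at e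
  rw [e, hy x hx, hs x hx, map_zero]
  simp

/-- a factor orthogonal to `K` -/
lemma Cl.kill [FiniteDimensional ℂ U] (h : Cl c b) (hb : ∀ x, (∀ y, b x y = 0) → x = 0) {K : Submodule ℂ U}
    {s : S} (hs : s ∈ top c K) {y : U} (hy : ∀ x ∈ K, b x y = 0) (l₁ l₂ : List U)
    (hl : l₁.length + l₂.length < finrank ℂ K) : lp c (l₁ ++ y :: l₂) s ∈ img c K := by
  have e : lp c (l₁ ++ y :: l₂) = ((-1 : ℂ) ^ l₂.length) • (lp c (l₁ ++ l₂) * c y) +
      lp c l₁ * (c y * lp c l₂ - ((-1 : ℂ) ^ l₂.length) • (lp c l₂ * c y)) := by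
    rw [lp_append, lp_cons, lp_append, mul_sub, mul_smul_comm, mul_assoc]
    abel
  rw [e, LinearMap.add_apply, LinearMap.smul_apply, Module.End.mul_apply]
  refine Submodule.add_mem _ (Submodule.smul_mem _ _ ?_) ?_
  · exact h.vanish_list hb (h.kill_top hy hs) _ (by simpa using hl)
  · exact h.vanish hb hs (C_mono (by omega) (lp_mul_mem (c := c) l₁ (h.comm_list y l₂)))

end Pool.Agent.H15.SP
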