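import Mathlib

/-!
# Orthogonal motives, spinor modules and Deligne's periods

A motive is given by its realizations: the complex vector space `U` is `M_B ⊗ ℂ`, identified with `M_dR ⊗ ℂ` by
the comparison isomorphism `I_∞`, so that `M_B` and `M_dR` are two rational structures `B` and `D` of `U`.
-/

set_option autoImplicit false

namespace Pool.Agent.H15.SP

open Module

variable {U : Type} [AddCommGroup U] [Module ℂ U] [Module ℚ U]

/-- `L` is a rational structure of the finite dimensional complex vector space `U`: the `ℚ`-span of a `ℂ`-basis. -/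
def IsRat (L : Submodule ℚ U) : Prop :=
  ∃ (n : ℕ) (v : Basis (Fin n) ℂ U), L = Submodule.span ℚ (Set.range v)

/-- The realizations of a pure motive of weight `w` over `ℚ` with rational coefficients. `U` is `M_B ⊗ ℂ`, which is
identified with `M_dR ⊗ ℂ` by the comparison isomorphism; `B = M_B`, `D = M_dR`, `F` is `F_∞` (extended
`ℂ`-linearly) and `H p = H^{p, w - p}`. -/
structure Mot (U : Type) [AddCommGroup U] [Module ℂ U] [Module ℚ U] where
  /-- the weight -/
  w : ℤ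
  /-- the Betti realization -/
  B : Submodule ℚ U
  /-- the de Rham realization -/
  D : Submodule ℚ U
  /-- the involution `F_∞` -/
  F : U →ₗ[ℂ] U
  /-- the Hodge decomposition -/
  H : ℤ → Submodule ℂ U
  B_rat : IsRat B
  D_rat : IsRat D
  F_sq : ∀ x, F (F x) = x
  F_B : ∀ x ∈ B, F x ∈ B
  decomp : DirectSum.IsInternal H
  swap : ∀ p, ∀ x ∈ H p, F x ∈ H (w - p)
  /-- the Hodge filtration is defined over `ℚ` in the de Rham realization -/
  fil_rat : ∀ i : ℤ, (⨆ p, ⨆ (_ : i ≤ p), H p) =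
    Submodule.span ℂ ((D : Set U) ∩ ((⨆ p, ⨆ (_ : i ≤ p), H p : Submodule ℂ U) : Set U))

namespace Mot

/-- the step `F^i` of the Hodge filtration (tensored with `ℂ`) -/
def fil (M : Mot U) (i : ℤ) : Submodule ℂ U := ⨆ p, ⨆ (_ : i ≤ p), M.H p

/-- the eigenspace `M_B^s` of `F_∞` in `M_B`, `s = 1` or `s = -1` -/
def eig (M : Mot U) (s : ℤˣ) : Submodule ℚ U where
  carrier := {x | x ∈ M.B ∧ M.F x = ((s : ℤ) : ℂ) • x}
  add_mem' := by
    rintro x y ⟨hx, hx'⟩ ⟨hy, hy'⟩
    exact ⟨M.B.add_mem hx hy, by rw [map_add, hx', hy', smul_add]⟩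
  zero_mem' := ⟨M.B.zero_mem, by simp⟩
  smul_mem' := by
    rintro q x ⟨hx, hx'⟩
    refine ⟨M.B.smul_mem q hx, ?_⟩
    rw [← Rat.cast_smul_eq_qsmul ℂ q x, map_smul, hx', smul_comm]

/-- `d^s = dim M_B^s` -/
noncomputable def dim (M : Mot U) (s : ℤˣ) : ℕ := finrank ℚ (M.eig s)

/-- `M` is critical, in terms of the Hodge data -/
def Critical (M : Mot U) : Prop :=
  (∀ p, M.H p ≠ ⊥ → p ≠ M.w - p → min p (M.w - p) ≤ -1 ∧ 0 ≤ max p (M.w - p)) ∧
  ∀ p, p = M.w - p → (p < 0 → ∀ x ∈ M.H p, M.F x = x) ∧ (0 ≤ p → ∀ x ∈ M.H p, M.F x = -x)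

/-- `c` is a Deligne period `c^s(M)`: the determinant, in rational bases, of the map from `M_B^s ⊗ ℂ` to
`(M_dR / F^{-s}) ⊗ ℂ`, where `F^{-s}` is the step of the Hodge filtration of dimension `d^{-s}`. The vectors `e k` are a
basis of `M_B^s`, the classes of the `v k ∈ M_dR` are a basis of `M_dR / F^{-s}`. -/
def IsPeriod (M : Mot U) (s : ℤˣ) (c : ℂ) : Prop :=
  ∃ i : ℤ, finrank ℂ (M.fil i) = M.dim (-s) ∧
    ∃ (n : ℕ) (e v : Fin n → U) (A : Matrix (Fin n) (Fin n) ℂ),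
      (∀ k, e k ∈ M.eig s) ∧ (∀ x ∈ M.eig s, ∃! a : Fin n → ℚ, x = ∑ k, (a k : ℂ) • e k) ∧
      (∀ k, v k ∈ M.D) ∧ (∀ x ∈ M.D, ∃! a : Fin n → ℚ, x - ∑ k, (a k : ℂ) • v k ∈ M.fil i) ∧
      (∀ j, e j - ∑ k, A k j • v k ∈ M.fil i) ∧ c = A.det

end Mot

/-- `b` is an orthogonal structure on the motive `M` of weight `0`: the realizations of a nondegenerate symmetric
morphism `M ⊗ M → ℚ(0)`. -/
structure IsOrth (M : Mot U) (b : LinearMap.BilinForm ℂ U) : Prop where
  weight : M.w = 0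
  symm : ∀ x y, b x y = b y x
  nondeg : ∀ x, (∀ y, b x y = 0) → x = 0
  betti : ∀ x ∈ M.B, ∀ y ∈ M.B, ∃ q : ℚ, b x y = q
  deRham : ∀ x ∈ M.D, ∀ y ∈ M.D, ∃ q : ℚ, b x y = q
  frob : ∀ x y, b (M.F x) (M.F y) = b x y
  hodge : ∀ p q, p + q ≠ 0 → ∀ x ∈ M.H p, ∀ y ∈ M.H q, b x y = 0

/-- A spinor module of the orthogonal motive `(M, b)`: a complex space `S = S_B ⊗ ℂ = S_dR ⊗ ℂ` with a Clifford
multiplication by the vectors of `M` which is rational for the Betti structures and for the de Rham structures, which is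
(absolutely) irreducible, and a nonzero operator `F` on `S_B` which lifts `F_∞`: it commutes with the Clifford
multiplication up to `F_∞` and the sign `(-1)^(d⁺ + 1)`. -/
structure Spinor (M : Mot U) (b : LinearMap.BilinForm ℂ U) (S : Type) [AddCommGroup S] [Module ℂ S]
    [Module ℚ S] where
  /-- the Betti realization of the spinor module -/
  B : Submodule ℚ S
  /-- the de Rham realization of the spinor module -/
  D : Submodule ℚ S
  B_rat : IsRat B
  D_rat : IsRat D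
  /-- Clifford multiplication -/
  c : U →ₗ[ℂ] Module.End ℂ S
  clifford : ∀ x s, c x (c x s) = b x x • s
  c_B : ∀ x ∈ M.B, ∀ s ∈ B, c x s ∈ B
  c_D : ∀ x ∈ M.D, ∀ s ∈ D, c x s ∈ D
  irr : ∀ T : Module.End ℂ S, (∀ x s, T (c x s) = c x (T s)) → ∃ a : ℂ, ∀ s, T s = a • s
  /-- the lift of `F_∞` -/
  F : Module.End ℂ S
  F_ne : F ≠ 0
  F_B : ∀ s ∈ B, F s ∈ B
  lift : ∀ x s, F (c x s) = ((-1 : ℂ) ^ (M.dim 1 + 1)) • c (M.F x) (F s)

namespace Spinor

variable {M : Mot U} {b : LinearMap.BilinForm ℂ U} {S : Type} [AddCommGroup S] [Module ℂ S] [Module ℚ S]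

/-- the extremal vectors of `S`: they are annihilated by `F^1 M` -/
def Extremal (T : Spinor M b S) (s : S) : Prop := ∀ y ∈ M.fil 1, T.c y s = 0

/-- the space `F^1 M · S` -/
def img (T : Spinor M b S) : Submodule ℂ S := Submodule.span ℂ {t | ∃ y ∈ M.fil 1, ∃ s, t = T.c y s}

/-- `β` is an invariant pairing on the de Rham realization of the spinor module: nondegenerate, rational on `S_dR`, and
the Clifford multiplication with a vector is its own adjoint up to a constant (in practice a sign). -/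
structure IsPairing (T : Spinor M b S) (β : S →ₗ[ℂ] S →ₗ[ℂ] ℂ) : Prop where
  rat : ∀ s ∈ T.D, ∀ t ∈ T.D, ∃ q : ℚ, β s t = q
  nondeg : ∀ s, (∀ t, β s t = 0) → s = 0
  adj : ∃ η : ℂ, η ≠ 0 ∧ ∀ x s t, β (T.c x s) t = η * β s (T.c x t)

end Spinor

/-- `m` is the cross product of a motive `M` of rank `7` with a structure of type `G₂`: the realizations of a morphism
`Λ² M → M` which makes `M` the space of the purely imaginary octonions; `b` is the form. -/
structure IsCross (M : Mot U) (b : LinearMap.BilinForm ℂ U) (m : U →ₗ[ℂ] U →ₗ[ℂ] U) : Prop where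
  orth : IsOrth M b
  rank : finrank ℂ U = 7
  alt : ∀ x, m x x = 0
  cyc : ∀ x y z, b (m x y) z = b x (m y z)
  sq : ∀ x y, m x (m x y) = b x y • x - b x x • y
  betti : ∀ x ∈ M.B, ∀ y ∈ M.B, m x y ∈ M.B
  deRham : ∀ x ∈ M.D, ∀ y ∈ M.D, m x y ∈ M.D
  frob : ∀ x y, M.F (m x y) = m (M.F x) (M.F y)
  hodge : ∀ p q, ∀ x ∈ M.H p, ∀ y ∈ M.H q, m x y ∈ M.H (p + q)

end Pool.Agent.H15.SP
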