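import Pool.Agent.H15.SP.Main

/-! The period of an orthogonal motive and the extremal vectors of the spinor module: end of the proof. -/

set_option autoImplicit false

namespace Pool.Agent.H15.SP

open Module

variable {U : Type} [AddCommGroup U] [Module ℂ U] [Module ℚ U] [IsScalarTower ℚ ℂ U] [FiniteDimensional ℂ U]
variable {S : Type} [AddCommGroup S] [Module ℂ S] [Module ℚ S]
variable {b : LinearMap.BilinForm ℂ U}

omit [IsScalarTower ℚ ℂ U] [FiniteDimensional ℂ U] in
/-- a family with unique rational coordinates is a basis -/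
lemma exists_basis {W : Submodule ℚ U} {n : ℕ} {e : Fin n → U} (he : ∀ k, e k ∈ W)
    (h : ∀ x ∈ W, ∃! a : Fin n → ℚ, x = ∑ k, (a k : ℂ) • e k) :
    ∃ B : Basis (Fin n) ℚ W, ∀ k, (B k : U) = e k := by
  have hind : LinearIndependent ℚ (fun k => (⟨e k, he k⟩ : W)) := by
    rw [Fintype.linearIndependent_iff]
    intro a ha
    obtain ⟨a0, h0, h1⟩ := h 0 W.zero_mem
    have h2 := h1 0 (by simp)
    have h3 := h1 a (by
      have := congrArg Subtype.val ha
      simp only [Submodule.coe_sum, Submodule.coe_smul] at this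
      simp_rw [Rat.cast_smul_eq_qsmul]
      exact this.symm)
    intro i
    rw [h3, ← h2]; rfl
  have hspan : ⊤ ≤ Submodule.span ℚ (Set.range (fun k => (⟨e k, he k⟩ : W))) := by
    rintro ⟨x, hx⟩ -
    obtain ⟨a, ha, -⟩ := h x hx
    have : (⟨x, hx⟩ : W) = ∑ k, a k • (⟨e k, he k⟩ : W) := by
      apply Subtype.ext
      simp only [Submodule.coe_sum, Submodule.coe_smul]
      simp_rw [Rat.cast_smul_eq_qsmul] at ha
      exact ha
    rw [this]
    exact Submodule.sum_mem _ fun k _ => Submodule.smul_mem _ _ (Submodule.subset_span ⟨k, rfl⟩)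
  exact ⟨Basis.mk hind hspan, fun k => by rw [Basis.mk_apply]⟩

omit [FiniteDimensional ℂ U] in
lemma dim_one {M : Mot U} (hc : Crit M) : M.dim 1 = finrank ℂ (M.fil 1) := by
  have h1 : (((1 : ℤˣ) : ℤ) : ℂ) = 1 := by simp
  rw [dim_eq, ← hc.finrank_plus, h1]

omit [FiniteDimensional ℂ U] in
lemma dim_neg_one {M : Mot U} (hc : Crit M) : M.dim (-1) = finrank ℂ (M.fil 0) := by
  have h1 : (((-1 : ℤˣ) : ℤ) : ℂ) = -1 := by simp
  rw [dim_eq, ← hc.finrank_minus, h1]

lemma fil_step {M : Mot U} (hc : Crit M) {i : ℤ} (hi : finrank ℂ (M.fil i) = M.dim (-1)) : M.fil i = M.fil 0 := by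
  rw [dim_neg_one hc] at hi
  rcases le_total i 0 with h | h
  · exact (Submodule.eq_of_le_of_finrank_eq (M.fil_anti h) hi.symm).symm
  · exact Submodule.eq_of_le_of_finrank_eq (M.fil_anti h) hi

omit [FiniteDimensional ℂ U] in
lemma span_ceig {M : Mot U} {n : ℕ} (B : Basis (Fin n) ℚ (M.eig 1)) (x : U) (hx : x ∈ M.ceig 1) :
    ∃ a : Fin n → ℂ, x = ∑ i, a i • (B i : U) := by
  have h1 : x ∈ Submodule.span ℂ (M.eig 1 : Set U) := by rw [span_eig]; simpa using hx
  have h2 : Submodule.span ℂ (M.eig 1 : Set U) ≤ Submodule.span ℂ (Set.range fun i => (B i : U)) := by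
    rw [Submodule.span_le]
    intro y hy
    have h3 := congrArg Subtype.val (B.sum_repr ⟨y, hy⟩)
    simp only [Submodule.coe_sum, Submodule.coe_smul] at h3
    rw [← h3]
    refine Submodule.sum_mem _ fun i _ => ?_
    rw [← Rat.cast_smul_eq_qsmul ℂ]
    exact Submodule.smul_mem _ _ (Submodule.subset_span ⟨i, rfl⟩)
  obtain ⟨a, ha⟩ := (Submodule.mem_span_range_iff_exists_fun ℂ).1 (h2 h1)
  exact ⟨a, ha.symm⟩

omit [FiniteDimensional ℂ U] in
lemma Spinor.F_inj {M : Mot U} (hM : IsOrth M b) (T : Spinor M b S) : Function.Injective T.F := by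
  obtain ⟨B₀, horth, hne⟩ := exists_orth hM
  obtain ⟨κ, hκ, hF, h⟩ := T.lift_eq hM (e := fun i => (B₀ i : U)) horth hne (fun i => (B₀ i).2)
    (fun x hx => span_ceig B₀ x hx)
  exact h

/-- the period and the lift of `F_∞` -/
lemma main_formula {M : Mot U} (hM : IsOrth M b) (hc : Crit M) (T : Spinor M b S) {c : ℂ} (h : M.IsPeriod 1 c) :
    ∃ R : Module.End ℂ S, (∀ s ∈ T.D, R s ∈ T.D) ∧
      ∀ s ∈ top T.c (M.fil 1), T.F s - c • R s ∈ Pool.Agent.H15.SP.img T.c (M.fil 1) := by
  obtain ⟨i, hi, n, e, v, A, he, he', hv, -, hA, rfl⟩ := h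
  rw [fil_step hc hi] at hA
  obtain ⟨B, hB⟩ := exists_basis he he'
  obtain ⟨B₀, horth, hne⟩ := exists_orth hM
  -- the lift of `F_∞`
  obtain ⟨κ, hκ, hF, -⟩ := T.lift_eq hM (e := fun i => (B₀ i : U)) horth hne (fun i => (B₀ i).2)
    (fun x hx => span_ceig B₀ x hx)
  -- reindex
  have hn : n = finrank ℚ (M.eig 1) := by
    have := finrank_eq_card_basis B
    rw [Fintype.card_fin] at this
    exact this.symm
  subst hn
  -- coordinates of the orthogonal basis
  let h : Matrix _ _ ℚ := B.toMatrix B₀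
  have hh : ∀ j, (B₀ j : U) = ∑ k, (h k j : ℂ) • e k := by
    intro j
    have h1 := congrArg Subtype.val (B.sum_repr (B₀ j))
    simp only [Submodule.coe_sum, Submodule.coe_smul, hB] at h1
    rw [← h1]
    simp_rw [Rat.cast_smul_eq_qsmul]
    rfl
  have hA' : ∀ j, ∀ x ∈ M.fil 1, b x ((B₀ j : U) - ∑ k, (A * h.map (fun q : ℚ => (q : ℂ))) k j • v k) = 0 := by
    intro j x hx
    refine hM.iso (i := 1) (j := 0) (by norm_num) hx ?_
    have e1 : (B₀ j : U) - ∑ k, (A * h.map (fun q : ℚ => (q : ℂ))) k j • v k =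
        ∑ l, (h l j : ℂ) • (e l - ∑ k, A k l • v k) := by
      simp_rw [smul_sub, Finset.sum_sub_distrib, ← hh, Finset.smul_sum, smul_smul]
      congr 1
      rw [Finset.sum_comm]
      refine Finset.sum_congr rfl fun k _ => ?_
      rw [Matrix.mul_apply, Finset.sum_smul]
      refine Finset.sum_congr rfl fun l _ => ?_
      rw [Matrix.map_apply, mul_comm]
    rw [e1]
    exact Submodule.sum_mem _ fun l _ => Submodule.smul_mem _ _ (hA l)
  have hn : finrank ℚ (M.eig 1) = finrank ℂ (M.fil 1) := dim_one hc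
  refine ⟨((κ : ℂ) * (h.det : ℂ)) • lp T.c (List.ofFn v), ?_, ?_⟩
  · intro s hs
    have hl : ∀ l : List U, (∀ x ∈ l, x ∈ M.D) → lp T.c l s ∈ T.D := by
      intro l
      induction l with
      | nil => intro _; simpa using hs
      | cons x l ih =>
        intro hl
        rw [lp_cons, Module.End.mul_apply]
        exact T.c_D x (hl x (by simp)) _ (ih (fun y hy => hl y (by simp [hy])))
    have h1 := hl (List.ofFn v) (by
      intro x hx
      rw [List.mem_ofFn] at hx
      obtain ⟨k, rfl⟩ := hx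
      exact hv k)
    rw [LinearMap.smul_apply]
    have h2 : ((κ : ℂ) * (h.det : ℂ)) • (lp T.c (List.ofFn v) s) = (κ * h.det) • (lp T.c (List.ofFn v) s) := by
      rw [← Rat.cast_smul_eq_qsmul ℂ]
      push_cast
      rfl
    rw [h2]
    exact T.D.smul_mem _ h1
  · intro s hs
    have h1 := det_formula (T.cl hM) hM.nondeg (M.fil 1) s hs _ hn (fun j => (B₀ j : U)) v _ hA'
    have h2 : (A * h.map (fun q : ℚ => (q : ℂ))).det = A.det * (h.det : ℂ) := by
      rw [Matrix.det_mul]
      congr 1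
      have : h.map (fun q : ℚ => (q : ℂ)) = (algebraMap ℚ ℂ).mapMatrix h := rfl
      rw [this, ← RingHom.map_det]
      rfl
    have h3 : T.F s - A.det • (((κ : ℂ) * (h.det : ℂ)) • lp T.c (List.ofFn v)) s =
        (κ : ℂ) • (lp T.c (List.ofFn fun j => (B₀ j : U)) s -
          (A * h.map (fun q : ℚ => (q : ℂ))).det • lp T.c (List.ofFn v) s) := by
      rw [hF, h2, LinearMap.smul_apply, LinearMap.smul_apply, smul_sub, smul_smul, smul_smul]
      congr 2
      ring
    rw [h3]
    exact Submodule.smul_mem _ _ h1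

/-- periods are not zero -/
lemma period_ne_zero {M : Mot U} (hc : Crit M) {c : ℂ} (h : M.IsPeriod 1 c) : c ≠ 0 := by
  obtain ⟨i, hi, n, e, v, A, he, he', hv, hv', hA, rfl⟩ := h
  rw [fil_step hc hi] at hA
  intro h0
  obtain ⟨a, ha0, ha⟩ := Matrix.exists_mulVec_eq_zero_iff.2 h0
  obtain ⟨B, hB⟩ := exists_basis he he'
  have hind : LinearIndependent ℂ e := by
    refine M.B_rat.linearIndependent (fun k => (he k).1) ?_
    have h1 := B.linearIndependent.map' (M.eig 1).subtype (Submodule.ker_subtype _)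
    have h2 : (M.eig 1).subtype ∘ B = e := by funext k; exact hB k
    rwa [h2] at h1
  have hx1 : ∑ j, a j • e j ∈ M.ceig 1 :=
    Submodule.sum_mem _ fun j _ => Submodule.smul_mem _ _ (Mot.mem_ceig.2 (by simpa using (he j).2))
  have hx2 : ∑ j, a j • e j ∈ M.fil 0 := by
    have e1 : ∑ j, a j • e j = ∑ j, a j • (e j - ∑ k, A k j • v k) := by
      simp_rw [smul_sub, Finset.sum_sub_distrib, Finset.smul_sum, smul_smul]
      rw [Finset.sum_comm (s := Finset.univ) (t := Finset.univ) (f := fun j k => (a j * A k j) • v k)]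
      have e2 : ∑ k, ∑ j, (a j * A k j) • v k = 0 := by
        refine Finset.sum_eq_zero fun k _ => ?_
        rw [← Finset.sum_smul]
        have := congrFun ha k
        simp only [Matrix.mulVec, dotProduct, Pi.zero_apply] at this
        have e3 : ∑ j, a j * A k j = 0 := by rw [← this]; exact Finset.sum_congr rfl fun j _ => mul_comm _ _
        rw [e3, zero_smul]
      rw [e2, sub_zero]
    rw [e1]
    exact Submodule.sum_mem _ fun j _ => Submodule.smul_mem _ _ (hA j)
  have h3 := hc.plus_fil0 hx1 hx2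
  exact ha0 (funext fun j => Fintype.linearIndependent_iff.1 hind a h3 j)

omit [IsScalarTower ℚ ℂ U] in
lemma finrank_total {M : Mot U} (hc : Crit M) :
    finrank ℂ U = finrank ℂ (M.fil 0) + finrank ℂ (M.fil 1) := by
  -- `U = ceig 1 ⊕ ceig (-1)`
  rw [← hc.finrank_plus, ← hc.finrank_minus, add_comm, ← Submodule.finrank_sup_add_finrank_inf_eq]
  have e1 : M.ceig 1 ⊓ M.ceig (-1) = ⊥ := by
    rw [eq_bot_iff]
    rintro x ⟨h3, h4⟩
    have h5 := Mot.mem_ceig.1 h3
    have h6 := Mot.mem_ceig.1 h4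
    rw [h6, one_smul, neg_smul, one_smul] at h5
    have h7 : (2 : ℂ) • x = 0 := by rw [two_smul]; nth_rewrite 1 [← h5]; simp
    simpa using h7
  have e2 : M.ceig 1 ⊔ M.ceig (-1) = ⊤ := by
    rw [eq_top_iff]
    intro x _
    have hx : x = (1 / 2 : ℂ) • (x + M.F x) + (1 / 2 : ℂ) • (x - M.F x) := by
      rw [← smul_add, add_add_sub_cancel, ← two_smul ℂ x, smul_smul]; norm_num
    rw [hx]
    refine Submodule.add_mem_sup ?_ ?_
    · rw [Mot.mem_ceig, map_smul, map_add, M.F_sq, one_smul, add_comm]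
    · rw [Mot.mem_ceig, map_smul, map_sub, M.F_sq, neg_smul, one_smul, ← smul_neg, neg_sub]
  rw [e1, e2, finrank_bot, finrank_top, add_zero]

/-- periods exist -/
lemma exists_period {M : Mot U} (hc : Crit M) : ∃ c, M.IsPeriod 1 c := by
  have := M.D_rat.finite
  have : Module.Finite ℚ M.B := M.B_rat.finite
  have : Module.Finite ℚ (M.eig 1) := Submodule.finiteDimensional_of_le (fun x hx => hx.1 : M.eig 1 ≤ M.B)
  let W : Submodule ℚ M.D := ((M.fil 0).restrictScalars ℚ).comap M.D.subtype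
  -- dimensions
  have hW : finrank ℚ W = finrank ℂ (M.fil 0) := by
    let W' : Submodule ℚ U := M.D ⊓ (M.fil 0).restrictScalars ℚ
    have h1 : finrank ℂ (Submodule.span ℂ (W' : Set U)) = finrank ℚ W' := M.D_rat.finrank_span inf_le_left
    have h2 : Submodule.span ℂ (W' : Set U) = M.fil 0 := (M.fil_rat 0).symm
    rw [← h2, h1]
    have h3 : W.map M.D.subtype = W' := by
      rw [Submodule.map_comap_subtype]
    rw [← h3]
    exact (LinearEquiv.finrank_eq (Submodule.equivMapOfInjective _ M.D.injective_subtype W))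
  have hD : finrank ℚ M.D = finrank ℂ U := by
    rw [← M.D_rat.finrank_span le_rfl, M.D_rat.span_eq_top, finrank_top]
  have hq : finrank ℚ (M.D ⧸ W) = finrank ℚ (M.eig 1) := by
    have h1 := Submodule.finrank_quotient_add_finrank W
    have h2 : finrank ℂ U = finrank ℂ (M.fil 0) + finrank ℂ (M.fil 1) := finrank_total hc
    have h3 : finrank ℚ (M.eig 1) = finrank ℂ (M.fil 1) := dim_one hc
    omega
  let e := finBasis ℚ (M.eig 1)
  let v := (finBasis ℚ (M.D ⧸ W)).reindex (finCongr hq)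
  choose v' hv' using fun k => Submodule.mkQ_surjective W (v k)
  have hunique : ∀ x ∈ M.D, ∃! a : Fin (finrank ℚ (M.eig 1)) → ℚ,
      x - ∑ k, (a k : ℂ) • (v' k : U) ∈ M.fil 0 := by
    intro x hx
    have key : ∀ a : Fin (finrank ℚ (M.eig 1)) → ℚ, x - ∑ k, (a k : ℂ) • (v' k : U) ∈ M.fil 0 ↔
        a = v.repr (W.mkQ ⟨x, hx⟩) := by
      intro a
      have h1 : x - ∑ k, (a k : ℂ) • (v' k : U) ∈ M.fil 0 ↔ (⟨x, hx⟩ : M.D) - ∑ k, a k • v' k ∈ W := by
        change _ ↔ (((⟨x, hx⟩ : M.D) - ∑ k, a k • v' k : M.D) : U) ∈ M.fil 0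
        simp only [Submodule.coe_sub, Submodule.coe_sum, Submodule.coe_smul]
        simp_rw [Rat.cast_smul_eq_qsmul]
      rw [h1, ← Submodule.Quotient.mk_eq_zero, Submodule.Quotient.mk_sub, sub_eq_zero]
      have h2 : Submodule.Quotient.mk (p := W) (∑ k, a k • v' k) = ∑ k, a k • v k := by
        rw [← Submodule.mkQ_apply, map_sum]
        refine Finset.sum_congr rfl fun k _ => ?_
        rw [map_smul, hv']
      rw [h2, ← Submodule.mkQ_apply]
      constructor
      · intro h3
        rw [h3]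
        funext k
        simp [Finsupp.single_apply]
      · intro h3
        rw [h3]
        exact (v.sum_repr _).symm
    exact ⟨_, (key _).2 rfl, fun a ha => (key a).1 ha⟩
  have hspan : ∀ x : U, ∃ a : Fin (finrank ℚ (M.eig 1)) → ℂ, x - ∑ k, a k • (v' k : U) ∈ M.fil 0 := by
    intro x
    have hx : x ∈ Submodule.span ℂ (M.D : Set U) := by rw [M.D_rat.span_eq_top]; trivial
    induction hx using Submodule.span_induction with
    | mem x hx =>
      obtain ⟨a, ha, -⟩ := hunique x hx
      exact ⟨fun k => a k, ha⟩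
    | zero => exact ⟨0, by simp⟩
    | add x y _ _ h1 h2 =>
      obtain ⟨a, ha⟩ := h1
      obtain ⟨a', ha'⟩ := h2
      refine ⟨a + a', ?_⟩
      have : x + y - ∑ k, (a + a') k • (v' k : U) = (x - ∑ k, a k • (v' k : U)) + (y - ∑ k, a' k • (v' k : U)) := by
        simp_rw [Pi.add_apply, add_smul, Finset.sum_add_distrib]
        abel
      rw [this]
      exact Submodule.add_mem _ ha ha'
    | smul q x _ h1 =>
      obtain ⟨a, ha⟩ := h1
      refine ⟨q • a, ?_⟩
      have : q • x - ∑ k, (q • a) k • (v' k : U) = q • (x - ∑ k, a k • (v' k : U)) := by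
        rw [smul_sub, Finset.smul_sum]
        simp_rw [Pi.smul_apply, smul_eq_mul, smul_smul]
      rw [this]
      exact Submodule.smul_mem _ _ ha
  choose A hA using fun j => hspan (e j : U)
  refine ⟨(Matrix.of fun k j => A j k).det, 0, (dim_neg_one hc).symm, _, fun k => (e k : U), fun k => (v' k : U),
    Matrix.of fun k j => A j k, fun k => (e k).2, ?_, fun k => (v' k).2, hunique, hA, rfl⟩
  intro x hx
  refine ⟨e.repr ⟨x, hx⟩, ?_, ?_⟩
  · have := congrArg Subtype.val (e.sum_repr ⟨x, hx⟩)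
    simp only [Submodule.coe_sum, Submodule.coe_smul] at this
    simp_rw [Rat.cast_smul_eq_qsmul]
    exact this.symm
  · intro a ha
    have h1 : (⟨x, hx⟩ : M.eig 1) = ∑ k, a k • e k := by
      apply Subtype.ext
      simp only [Submodule.coe_sum, Submodule.coe_smul]
      simp_rw [Rat.cast_smul_eq_qsmul] at ha
      exact ha
    rw [h1]
    funext k
    simp [Finsupp.single_apply]

/-- rational extremal vectors exist -/
lemma exists_extremal {M : Mot U} (hM : IsOrth M b) (T : Spinor M b S) :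
    ∃ s ∈ T.D, s ≠ 0 ∧ s ∈ top T.c (M.fil 1) := by
  have h := T.cl hM
  obtain ⟨s₀, hs₀, hs₀'⟩ : ∃ s ∈ T.D, s ≠ 0 := by
    by_contra hcon
    push Not at hcon
    apply T.F_ne
    have h5 : (⊤ : Submodule ℂ S) ≤ ⊥ := by
      rw [← T.D_rat.span_eq_top, Submodule.span_le]
      intro s hs
      simpa using hcon s hs
    refine LinearMap.ext fun s => ?_
    have : s = 0 := by simpa using h5 (Submodule.mem_top : s ∈ ⊤)
    rw [this, map_zero, map_zero]
  have key : ∀ l : List U, (∀ y ∈ l, y ∈ M.D ∧ y ∈ M.fil 1) → ∃ s ∈ T.D, s ≠ 0 ∧ ∀ y ∈ l, T.c y s = 0 := by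
    intro l
    induction l with
    | nil => intro _; exact ⟨s₀, hs₀, hs₀', by simp⟩
    | cons y l ih =>
      intro hl
      obtain ⟨s, hs, hs0, hsl⟩ := ih (fun z hz => hl z (by simp [hz]))
      by_cases h0 : T.c y s = 0
      · refine ⟨s, hs, hs0, ?_⟩
        intro z hz
        rcases List.mem_cons.1 hz with rfl | hz
        · exact h0
        · exact hsl z hz
      · refine ⟨T.c y s, T.c_D y (hl y (by simp)).1 s hs, h0, ?_⟩
        have hyy : ∀ z ∈ M.fil 1, b z y = 0 := fun z hz => hM.iso (by norm_num) hz (hl y (by simp)).2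
        intro z hz
        rcases List.mem_cons.1 hz with rfl | hz'
        · rw [T.clifford, hyy z (hl z (by simp)).2, zero_smul]
        · have e := LinearMap.congr_fun (h.swap z y) s
          simp only [LinearMap.sub_apply, Module.End.mul_apply, LinearMap.smul_apply, Module.End.one_apply] at e
          rw [e, hyy z (hl z (by simp [hz'])).2, hsl z hz', map_zero]
          simp
  have := M.D_rat.finite
  let W : Submodule ℚ U := M.D ⊓ (M.fil 1).restrictScalars ℚ
  have : Module.Finite ℚ W := Submodule.finiteDimensional_of_le (inf_le_left : W ≤ M.D)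
  let e := finBasis ℚ W
  obtain ⟨s, hs, hs0, hsl⟩ := key (List.ofFn fun i => (e i : U)) (by
    intro y hy
    rw [List.mem_ofFn] at hy
    obtain ⟨i, rfl⟩ := hy
    exact ⟨(e i).2.1, (e i).2.2⟩)
  refine ⟨s, hs, hs0, ?_⟩
  have h1 : M.fil 1 ≤ LinearMap.ker ((LinearMap.applyₗ s).comp T.c) := by
    have h2 : Submodule.span ℂ (W : Set U) = M.fil 1 := (M.fil_rat 1).symm
    rw [← h2, Submodule.span_le]
    intro y hy
    have h3 := congrArg Subtype.val (e.sum_repr ⟨y, hy⟩)
    simp only [Submodule.coe_sum, Submodule.coe_smul] at h3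
    rw [SetLike.mem_coe, LinearMap.mem_ker, ← h3, map_sum]
    refine Finset.sum_eq_zero fun i _ => ?_
    rw [← Rat.cast_smul_eq_qsmul ℂ, map_smul]
    have h4 : T.c (e i : U) s = 0 := hsl _ (by rw [List.mem_ofFn]; exact ⟨i, rfl⟩)
    change _ • T.c (e i : U) s = 0
    rw [h4, smul_zero]
  intro y hy
  exact LinearMap.mem_ker.1 (h1 hy)

end Pool.Agent.H15.SP
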