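import Pool.Agent.H15.SP.Rat

/-! Hodge decompositions of weight `0` and the involution `F_∞`. -/

set_option autoImplicit false

namespace Pool.Agent.H15.SP

open Module

variable {U : Type} [AddCommGroup U] [Module ℂ U] [Module ℚ U]

namespace Mot

variable (M : Mot U)

/-- the lower part -/
def low (i : ℤ) : Submodule ℂ U := ⨆ p, ⨆ (_ : p ≤ i), M.H p

lemma H_le_fil {i p : ℤ} (h : i ≤ p) : M.H p ≤ M.fil i := le_iSup₂_of_le p h le_rfl

lemma H_le_low {i p : ℤ} (h : p ≤ i) : M.H p ≤ M.low i := le_iSup₂_of_le p h le_rfl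

lemma fil_anti {i j : ℤ} (h : i ≤ j) : M.fil j ≤ M.fil i :=
  iSup₂_le fun p hp => M.H_le_fil (h.trans hp)

lemma disj {i j : ℤ} (h : j < i) : Disjoint (M.fil i) (M.low j) := by
  have h1 := M.decomp.submodule_iSupIndep
  have h2 : M.fil i = ⨆ p ∈ {p : ℤ | i ≤ p}, M.H p := rfl
  have h3 : M.low j = ⨆ p ∈ {p : ℤ | p ≤ j}, M.H p := rfl
  rw [h2, h3]
  refine h1.disjoint_biSup_biSup ?_
  rw [Set.disjoint_left]
  intro p hp hp'
  have h4 : i ≤ p := hp
  have h5 : p ≤ j := hp'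
  omega

lemma fil_eq (i : ℤ) : M.fil i = M.H i ⊔ M.fil (i + 1) := by
  apply le_antisymm
  · refine iSup₂_le fun p hp => ?_
    rcases eq_or_lt_of_le hp with h | h
    · rw [← h]; exact le_sup_left
    · exact (M.H_le_fil (by omega)).trans le_sup_right
  · exact sup_le (M.H_le_fil le_rfl) (M.fil_anti (by omega))

lemma fil_sup_low (i : ℤ) : M.fil i ⊔ M.low (i - 1) = ⊤ := by
  rw [eq_top_iff, ← M.decomp.submodule_iSup_eq_top]
  refine iSup_le fun p => ?_
  rcases le_or_gt i p with h | h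
  · exact (M.H_le_fil h).trans le_sup_left
  · exact (M.H_le_low (by omega)).trans le_sup_right

lemma F_fil {i : ℤ} {x : U} (hx : x ∈ M.fil i) : M.F x ∈ M.low (M.w - i) := by
  have : M.fil i ≤ (M.low (M.w - i)).comap M.F := by
    refine iSup₂_le fun p hp => ?_
    intro y hy
    exact M.H_le_low (by omega) (M.swap p y hy)
  exact this hx

lemma F_low {i : ℤ} {x : U} (hx : x ∈ M.low i) : M.F x ∈ M.fil (M.w - i) := by
  have : M.low i ≤ (M.fil (M.w - i)).comap M.F := by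
    refine iSup₂_le fun p hp => ?_
    intro y hy
    exact M.H_le_fil (by omega) (M.swap p y hy)
  exact this hx

end Mot

/-- decomposition of a vector: `x = a + h + F a'` -/
lemma split {M : Mot U} (hw : M.w = 0) (x : U) :
    ∃ a ∈ M.fil 1, ∃ h ∈ M.H 0, ∃ a' ∈ M.fil 1, x = a + h + M.F a' := by
  have h1 : x ∈ M.fil 0 ⊔ M.low (0 - 1) := by rw [M.fil_sup_low]; trivial
  obtain ⟨y, hy, z, hz, rfl⟩ := Submodule.mem_sup.1 h1
  rw [M.fil_eq 0] at hy
  obtain ⟨h, hh, a, ha, rfl⟩ := Submodule.mem_sup.1 hy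
  refine ⟨a, by simpa using ha, h, hh, M.F z, ?_, ?_⟩
  · have := M.F_low hz
    rw [hw] at this
    simpa using this
  · rw [M.F_sq]; abel

lemma zero_of_split {M : Mot U} (hw : M.w = 0) {a h a' : U} (ha : a ∈ M.fil 1) (hh : h ∈ M.H 0) (ha' : a' ∈ M.fil 1)
    (e : a + h + M.F a' = 0) : a = 0 ∧ h = 0 ∧ a' = 0 := by
  have h1 : M.F a' ∈ M.low (-1) := by
    have := M.F_fil ha'
    rw [hw] at this
    simpa using this
  have h2 : a + h ∈ M.fil 0 := by
    rw [M.fil_eq 0]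
    exact add_comm h a ▸ Submodule.add_mem_sup hh (by simpa using ha)
  have h3 : a + h = 0 := by
    refine Submodule.disjoint_def.1 (M.disj (show (-1 : ℤ) < 0 by norm_num)) _ h2 ?_
    have : a + h = -M.F a' := eq_neg_of_add_eq_zero_left e
    rw [this]
    exact Submodule.neg_mem _ h1
  have h4 : M.F a' = 0 := by rw [h3, zero_add] at e; exact e
  have h5 : a = 0 := by
    refine Submodule.disjoint_def.1 (M.disj (show (0 : ℤ) < 1 by norm_num)) _ ha ?_
    have : a = -h := eq_neg_of_add_eq_zero_left h3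
    rw [this]
    exact Submodule.neg_mem _ (M.H_le_low le_rfl hh)
  refine ⟨h5, by rw [h5, zero_add] at h3; exact h3, ?_⟩
  rw [← M.F_sq a', h4, map_zero]

/-- the complex eigenspaces of `F_∞` -/
def Mot.ceig (M : Mot U) (s : ℂ) : Submodule ℂ U := LinearMap.ker (M.F - s • LinearMap.id)

lemma Mot.mem_ceig {M : Mot U} {s : ℂ} {x : U} : x ∈ M.ceig s ↔ M.F x = s • x := by
  simp [Mot.ceig, sub_eq_zero]

/-- the hypotheses on `F_∞` -/
structure Crit (M : Mot U) : Prop where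
  hw : M.w = 0
  mid : ∀ x ∈ M.H 0, M.F x = -x

lemma Crit.of (M : Mot U) (hw : M.w = 0) (h : M.Critical) : Crit M :=
  ⟨hw, fun x hx => (h.2 0 (by rw [hw]; rfl)).2 le_rfl x hx⟩

namespace Crit

variable {M : Mot U} (hM : Crit M)
include hM

lemma plus {x : U} (hx : x ∈ M.ceig 1) : ∃ a ∈ M.fil 1, x = a + M.F a := by
  obtain ⟨a, ha, h, hh, a', ha', rfl⟩ := split hM.hw x
  rw [Mot.mem_ceig, one_smul, map_add, map_add, M.F_sq, hM.mid h hh] at hx
  have e : (a - a') + ((2 : ℂ) • h) + M.F (a' - a) = 0 := by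
    rw [map_sub, two_smul]
    have : a - a' + (h + h) + (M.F a' - M.F a) = (a + h + M.F a') - (M.F a + -h + a') := by abel
    rw [this, hx, sub_self]
  obtain ⟨e1, e2, -⟩ := zero_of_split hM.hw (Submodule.sub_mem _ ha ha') (Submodule.smul_mem _ _ hh)
    (Submodule.sub_mem _ ha' ha) e
  have e3 : h = 0 := by simpa using e2
  exact ⟨a, ha, by rw [e3, ← sub_eq_zero.1 e1]; simp⟩

lemma minus {x : U} (hx : x ∈ M.ceig (-1)) : ∃ y ∈ M.fil 0, x = y - M.F y := by
  obtain ⟨a, ha, h, hh, a', ha', rfl⟩ := split hM.hw x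
  rw [Mot.mem_ceig, neg_smul, one_smul, map_add, map_add, M.F_sq, hM.mid h hh] at hx
  have e : (a + a') + (0 : U) + M.F (a' + a) = 0 := by
    rw [map_add]
    have : a + a' + 0 + (M.F a' + M.F a) = (a + h + M.F a') + (M.F a + -h + a') := by abel
    rw [this, hx, add_neg_cancel]
  obtain ⟨e1, -, -⟩ := zero_of_split hM.hw (Submodule.add_mem _ ha ha') (Submodule.zero_mem _)
    (Submodule.add_mem _ ha' ha) e
  have e3 : a' = -a := by rw [add_comm] at e1; exact eq_neg_of_add_eq_zero_left e1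
  refine ⟨a + (1 / 2 : ℂ) • h, Submodule.add_mem _ (M.fil_anti (by norm_num) ha)
    (Submodule.smul_mem _ _ (M.H_le_fil le_rfl hh)), ?_⟩
  rw [e3, map_neg, map_add, map_smul, hM.mid h hh, smul_neg]
  have : h = (1 / 2 : ℂ) • h + (1 / 2 : ℂ) • h := by rw [← add_smul]; norm_num
  nth_rewrite 1 [this]
  abel

lemma plus_fil0 {x : U} (hx : x ∈ M.ceig 1) (hx' : x ∈ M.fil 0) : x = 0 := by
  obtain ⟨a, ha, rfl⟩ := hM.plus hx
  rw [M.fil_eq 0] at hx'
  obtain ⟨h, hh, a1, ha1, e⟩ := Submodule.mem_sup.1 hx'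
  have e' : (a - a1) + (-h) + M.F a = 0 := by
    have : a - a1 + -h + M.F a = (a + M.F a) - (h + a1) := by abel
    rw [this, e, sub_self]
  obtain ⟨-, -, e3⟩ := zero_of_split hM.hw (Submodule.sub_mem _ ha (by simpa using ha1)) (Submodule.neg_mem _ hh) ha e'
  rw [e3]; simp

lemma finrank_plus : finrank ℂ (M.ceig 1) = finrank ℂ (M.fil 1) := by
  let g : M.fil 1 →ₗ[ℂ] M.ceig 1 :=
    LinearMap.codRestrict (M.ceig 1) ((LinearMap.id + M.F).comp (M.fil 1).subtype) (by
      intro x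
      rw [Mot.mem_ceig]
      simp [M.F_sq, add_comm])
  have hg : ∀ x, ((g x : M.ceig 1) : U) = (x : U) + M.F x := fun x => by simp [g]
  have hinj : Function.Injective g := by
    rw [← LinearMap.ker_eq_bot, LinearMap.ker_eq_bot']
    intro x hx
    have h1 : (x : U) + 0 + M.F x = 0 := by rw [add_zero, ← hg x, hx]; rfl
    exact Subtype.ext (zero_of_split hM.hw x.2 (Submodule.zero_mem _) x.2 h1).1
  have hsurj : Function.Surjective g := by
    rintro ⟨x, hx⟩
    obtain ⟨a, ha, rfl⟩ := hM.plus hx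
    exact ⟨⟨a, ha⟩, Subtype.ext (hg _)⟩
  exact (LinearEquiv.ofBijective g ⟨hinj, hsurj⟩).finrank_eq.symm

lemma finrank_minus : finrank ℂ (M.ceig (-1)) = finrank ℂ (M.fil 0) := by
  let g : M.fil 0 →ₗ[ℂ] M.ceig (-1) :=
    LinearMap.codRestrict (M.ceig (-1)) ((LinearMap.id - M.F).comp (M.fil 0).subtype) (by
      intro x
      rw [Mot.mem_ceig]
      simp [M.F_sq])
  have hg : ∀ x, ((g x : M.ceig (-1)) : U) = (x : U) - M.F x := fun x => by simp [g]
  have hinj : Function.Injective g := by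
    rw [← LinearMap.ker_eq_bot, LinearMap.ker_eq_bot']
    intro x hx
    have h1 : M.F x = x := by
      have := hg x
      rw [hx] at this
      exact (sub_eq_zero.1 this.symm).symm
    exact Subtype.ext (hM.plus_fil0 (Mot.mem_ceig.2 (by rw [h1, one_smul])) x.2)
  have hsurj : Function.Surjective g := by
    rintro ⟨x, hx⟩
    obtain ⟨a, ha, rfl⟩ := hM.minus hx
    exact ⟨⟨a, ha⟩, Subtype.ext (hg _)⟩
  exact (LinearEquiv.ofBijective g ⟨hinj, hsurj⟩).finrank_eq.symm

end Crit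

variable [IsScalarTower ℚ ℂ U]

lemma span_eig (M : Mot U) (s : ℤˣ) : Submodule.span ℂ (M.eig s : Set U) = M.ceig (((s : ℤ) : ℂ)) := by
  apply le_antisymm
  · rw [Submodule.span_le]
    intro x hx
    exact Mot.mem_ceig.2 hx.2
  · intro x hx
    have hs : ((s : ℤ) : ℂ) * ((s : ℤ) : ℂ) = 1 := by
      rcases Int.units_eq_one_or s with rfl | rfl <;> simp
    let P : U →ₗ[ℂ] U := (1 / 2 : ℂ) • (LinearMap.id + ((s : ℤ) : ℂ) • M.F)
    have hP : ∀ y, P y = (1 / 2 : ℂ) • (y + ((s : ℤ) : ℂ) • M.F y) := fun y => by simp [P]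
    have h1 : (⊤ : Submodule ℂ U) ≤ (Submodule.span ℂ (M.eig s : Set U)).comap P := by
      rw [← M.B_rat.span_eq_top, Submodule.span_le]
      intro y hy
      refine Submodule.subset_span ?_
      constructor
      · have : P y = (1 / 2 : ℚ) • (y + ((s : ℤ) : ℚ) • M.F y) := by
          rw [hP, ← Rat.cast_smul_eq_qsmul ℂ, ← Rat.cast_smul_eq_qsmul ℂ]
          push_cast
          rfl
        rw [this]
        exact M.B.smul_mem _ (M.B.add_mem hy (M.B.smul_mem _ (M.F_B y hy)))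
      · rw [hP, map_smul, map_add, map_smul, M.F_sq, smul_comm (((s : ℤ) : ℂ)) (1 / 2 : ℂ)]
        congr 1
        rw [smul_add, smul_smul, hs, one_smul, add_comm]
    have h2 : P x = x := by
      rw [hP, Mot.mem_ceig.1 hx, smul_smul, hs, one_smul, smul_add, ← add_smul]
      norm_num
    rw [← h2]
    exact h1 (Submodule.mem_top)

lemma dim_eq (M : Mot U) (s : ℤˣ) : M.dim s = finrank ℂ (M.ceig ((s : ℤ) : ℂ)) := by
  rw [← span_eig, Mot.dim]
  exact (M.B_rat.finrank_span (W := M.eig s) (fun x hx => hx.1)).symm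

end Pool.Agent.H15.SP
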