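import Pool.Agent.H15.SP.Alt
import Pool.Agent.H15.SP.Hodge

/-! The lift of `F_∞` is a multiple of the product of an orthogonal basis of `M_B⁺`. -/

set_option autoImplicit false

namespace Pool.Agent.H15.SP

open Module

variable {U : Type} [AddCommGroup U] [Module ℂ U]
variable {S : Type} [AddCommGroup S] [Module ℂ S]
variable {c : U →ₗ[ℂ] Module.End ℂ S} {b : LinearMap.BilinForm ℂ U}

lemma gamma_basis (h : Cl c b) {m : ℕ} {e : Fin m → U} (horth : ∀ i j, i ≠ j → b (e i) (e j) = 0) (j : Fin m) :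
    c (e j) * lp c (List.ofFn e) = ((-1 : ℂ) ^ (m + 1)) • (lp c (List.ofFn e) * c (e j)) := by
  have h1 : List.ofFn e = (List.ofFn e).take j ++ e j :: (List.ofFn e).drop (j + 1) := by
    conv_lhs => rw [← List.take_append_drop j (List.ofFn e), List.drop_eq_getElem_cons (by simp), List.getElem_ofFn]
  have hlen := congrArg List.length h1
  have o1 : ∀ y ∈ (List.ofFn e).take j, b (e j) y = 0 := by
    intro y hy
    obtain ⟨i, hi, rfl⟩ := List.getElem_of_mem hy
    rw [List.length_take, List.length_ofFn] at hi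
    rw [List.getElem_take, List.getElem_ofFn]
    apply horth
    intro hh
    have := congrArg Fin.val hh
    simp at this
    omega
  have o2 : ∀ y ∈ (List.ofFn e).drop (j + 1), b (e j) y = 0 := by
    intro y hy
    obtain ⟨i, hi, rfl⟩ := List.getElem_of_mem hy
    rw [List.length_drop, List.length_ofFn] at hi
    rw [List.getElem_drop, List.getElem_ofFn]
    apply horth
    intro hh
    have := congrArg Fin.val hh
    simp at this
    omega
  generalize (List.ofFn e).take j = l₁ at h1 hlen o1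
  generalize (List.ofFn e).drop (j + 1) = l₂ at h1 hlen o2
  rw [List.length_ofFn, List.length_append, List.length_cons] at hlen
  rw [h1, lp_append, lp_cons, ← mul_assoc, h.anti_list _ _ o1, smul_mul_assoc, mul_assoc (lp c l₁) (c (e j)),
    mul_assoc (lp c l₁), mul_assoc (c (e j)) (lp c l₂)]
  have h3 : lp c l₂ * c (e j) = ((-1 : ℂ) ^ l₂.length) • (c (e j) * lp c l₂) := by
    rw [h.anti_list _ _ o2, smul_smul, ← mul_pow]; simp
  rw [h3, mul_smul_comm, mul_smul_comm, smul_smul]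
  congr 1
  have h4 : (-1 : ℂ) ^ (m + 1) * (-1) ^ l₂.length = (-1) ^ l₁.length * ((-1) ^ 2 * ((-1) ^ l₂.length * (-1) ^ l₂.length)) := by
    rw [hlen]; ring
  rw [h4, ← mul_pow]
  simp

variable [Module ℚ U]

lemma gamma_comm {M : Mot U} (h : Cl c b) (hF : ∀ x y, b (M.F x) (M.F y) = b x y) {m : ℕ} {e : Fin m → U}
    (horth : ∀ i j, i ≠ j → b (e i) (e j) = 0) (he : ∀ i, e i ∈ M.ceig 1)
    (hspan : ∀ x ∈ M.ceig 1, ∃ a : Fin m → ℂ, x = ∑ i, a i • e i) (x : U) :
    c (M.F x) * lp c (List.ofFn e) = ((-1 : ℂ) ^ (m + 1)) • (lp c (List.ofFn e) * c x) := by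
  have hp : (1 / 2 : ℂ) • (x + M.F x) ∈ M.ceig 1 := by
    rw [Mot.mem_ceig, map_smul, map_add, M.F_sq, one_smul, add_comm]
  have hm : (1 / 2 : ℂ) • (x - M.F x) ∈ M.ceig (-1) := by
    rw [Mot.mem_ceig, map_smul, map_sub, M.F_sq, neg_smul, one_smul, ← smul_neg, neg_sub]
  have hx : x = (1 / 2 : ℂ) • (x + M.F x) + (1 / 2 : ℂ) • (x - M.F x) := by
    rw [← smul_add, add_add_sub_cancel, ← two_smul ℂ x, smul_smul]; norm_num
  have k1 : ∀ y ∈ M.ceig 1, c (M.F y) * lp c (List.ofFn e) = ((-1 : ℂ) ^ (m + 1)) • (lp c (List.ofFn e) * c y) := by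
    intro y hy
    rw [Mot.mem_ceig.1 hy, one_smul]
    obtain ⟨a, rfl⟩ := hspan y hy
    rw [map_sum, Finset.sum_mul, Finset.mul_sum, Finset.smul_sum]
    refine Finset.sum_congr rfl fun i _ => ?_
    rw [map_smul, smul_mul_assoc, gamma_basis h horth, mul_smul_comm, smul_comm]
  have k2 : ∀ y ∈ M.ceig (-1), c (M.F y) * lp c (List.ofFn e) = ((-1 : ℂ) ^ (m + 1)) • (lp c (List.ofFn e) * c y) := by
    intro y hy
    rw [Mot.mem_ceig.1 hy, map_smul, smul_mul_assoc]
    have h0 : ∀ z ∈ List.ofFn e, b y z = 0 := by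
      intro z hz
      rw [List.mem_ofFn] at hz
      obtain ⟨i, rfl⟩ := hz
      have := hF y (e i)
      rw [Mot.mem_ceig.1 hy, Mot.mem_ceig.1 (he i), one_smul, map_smul, LinearMap.smul_apply, smul_eq_mul] at this
      linear_combination (-1 / 2) * this
    rw [h.anti_list y _ h0, List.length_ofFn, smul_smul, pow_succ]
    ring_nf
  have k3 : ∀ y z, y ∈ M.ceig 1 → z ∈ M.ceig (-1) →
      c (M.F (y + z)) * lp c (List.ofFn e) = ((-1 : ℂ) ^ (m + 1)) • (lp c (List.ofFn e) * c (y + z)) := by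
    intro y z hy hz
    rw [map_add, map_add, add_mul, map_add, mul_add, smul_add, k1 _ hy, k2 _ hz]
  rw [hx]
  exact k3 _ _ hp hm

variable [Module ℚ S]

/-- the Clifford relation of a spinor module -/
lemma Spinor.cl {M : Mot U} (hM : IsOrth M b) (T : Spinor M b S) : Cl T.c b :=
  ⟨hM.symm, fun x => LinearMap.ext fun s => by
    rw [Module.End.mul_apply, T.clifford, LinearMap.smul_apply, Module.End.one_apply]⟩

variable [IsScalarTower ℚ ℂ U]

/-- an orthogonal basis of `M_B⁺` -/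
lemma exists_orth {M : Mot U} (hM : IsOrth M b) : ∃ e : Basis (Fin (finrank ℚ (M.eig 1))) ℚ (M.eig 1),
    (∀ i j, i ≠ j → b (e i : U) (e j) = 0) ∧ ∀ i, b (e i : U) (e i) ≠ 0 := by
  obtain ⟨π, hπ⟩ := exists_ratPart
  have := M.B_rat.finite
  have : Module.Finite ℚ (M.eig 1) := Submodule.finiteDimensional_of_le (fun x hx => hx.1 : M.eig 1 ≤ M.B)
  let B : LinearMap.BilinForm ℚ (M.eig 1) := LinearMap.mk₂ ℚ (fun x y => π (b (x : U) (y : U)))
    (by intro x y z; simp)
    (by
      intro q x y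
      simp only [Submodule.coe_smul, smul_eq_mul]
      rw [← Rat.cast_smul_eq_qsmul ℂ, map_smul, LinearMap.smul_apply, Rat.cast_smul_eq_qsmul, map_smul, smul_eq_mul])
    (by intro x y z; simp)
    (by
      intro q x y
      simp only [Submodule.coe_smul, smul_eq_mul]
      rw [← Rat.cast_smul_eq_qsmul ℂ, map_smul, Rat.cast_smul_eq_qsmul, map_smul, smul_eq_mul])
  have hB : ∀ x y : M.eig 1, ((B x y : ℚ) : ℂ) = b (x : U) (y : U) := by
    intro x y
    obtain ⟨q, hq⟩ := hM.betti x x.2.1 y y.2.1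
    change ((π (b (x : U) (y : U)) : ℚ) : ℂ) = _
    rw [hq, hπ]
  have hsymm : LinearMap.IsSymm B := ⟨fun x y => by
    have : ((B x y : ℚ) : ℂ) = ((B y x : ℚ) : ℂ) := by rw [hB, hB, hM.symm]
    simpa using Rat.cast_injective this⟩
  have : Invertible (2 : ℚ) := invertibleOfNonzero (by norm_num)
  obtain ⟨e, he⟩ := LinearMap.BilinForm.exists_orthogonal_basis hsymm
  have horth : ∀ i j, i ≠ j → b (e i : U) (e j) = 0 := by
    intro i j hij
    rw [← hB, (he hij : B (e i) (e j) = 0)]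
    simp
  refine ⟨e, horth, ?_⟩
  intro i h0
  -- `e i` is orthogonal to everything
  have h1 : ∀ x : M.eig 1, b (e i : U) x = 0 := by
    intro x
    rw [← e.sum_repr x, Submodule.coe_sum, map_sum]
    refine Finset.sum_eq_zero fun j _ => ?_
    rw [Submodule.coe_smul, ← Rat.cast_smul_eq_qsmul ℂ, map_smul]
    by_cases hij : i = j
    · subst hij; rw [h0, smul_zero]
    · rw [horth i j hij, smul_zero]
  have h2 : ∀ x ∈ M.ceig 1, b (e i : U) x = 0 := by
    intro x hx
    have h3 : x ∈ Submodule.span ℂ (M.eig 1 : Set U) := by rw [span_eig]; simpa using hx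
    induction h3 using Submodule.span_induction with
    | mem x hx' => exact h1 ⟨x, hx'⟩
    | zero => simp
    | add x y hx' hy' h4 h5 =>
      rw [map_add, h4 ?_, h5 ?_, add_zero]
      · have := (span_eig M 1).le hy'; simpa using this
      · have := (span_eig M 1).le hx'; simpa using this
    | smul a x hx' h4 =>
      rw [map_smul, h4 ?_, smul_zero]
      have := (span_eig M 1).le hx'; simpa using this
  have h3 : ∀ x, b (e i : U) x = 0 := by
    intro x
    have hx : x = (1 / 2 : ℂ) • (x + M.F x) + (1 / 2 : ℂ) • (x - M.F x) := by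
      rw [← smul_add, add_add_sub_cancel, ← two_smul ℂ x, smul_smul]; norm_num
    have hp : (1 / 2 : ℂ) • (x + M.F x) ∈ M.ceig 1 := by
      rw [Mot.mem_ceig, map_smul, map_add, M.F_sq, one_smul, add_comm]
    have hei : M.F (e i : U) = e i := by simpa using (e i).2.2
    rw [hx, map_add, h2 _ hp, zero_add, map_smul, map_sub]
    have := hM.frob (e i : U) x
    rw [hei] at this
    rw [this, sub_self, smul_zero]
  have h4 := hM.nondeg _ h3
  exact e.ne_zero i (Subtype.ext h4)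

/-- the lift of `F_∞` -/
lemma Spinor.lift_eq {M : Mot U} (hM : IsOrth M b) (T : Spinor M b S) {e : Fin (M.dim 1) → U}
    (horth : ∀ i j, i ≠ j → b (e i) (e j) = 0) (hne : ∀ i, b (e i) (e i) ≠ 0) (he : ∀ i, e i ∈ M.eig 1)
    (hspan : ∀ x ∈ M.ceig 1, ∃ a : Fin (M.dim 1) → ℂ, x = ∑ i, a i • e i) :
    ∃ κ : ℚ, κ ≠ 0 ∧ T.F = (κ : ℂ) • lp T.c (List.ofFn e) ∧ Function.Injective T.F := by
  have h := T.cl hM
  have he' : ∀ i, e i ∈ M.ceig 1 := fun i => Mot.mem_ceig.2 (by simpa using (he i).2)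
  have hcomm := gamma_comm h hM.frob horth he' hspan
  -- `γ` is invertible
  have hunit : IsUnit (lp T.c (List.ofFn e)) := by
    apply List.prod_isUnit
    intro x hx
    rw [List.mem_map] at hx
    obtain ⟨y, hy, rfl⟩ := hx
    rw [List.mem_ofFn] at hy
    obtain ⟨i, rfl⟩ := hy
    have h2 := h.2 (e i)
    refine ⟨⟨T.c (e i), (b (e i) (e i))⁻¹ • T.c (e i), ?_, ?_⟩, rfl⟩
    · rw [mul_smul_comm, h2, smul_smul, inv_mul_cancel₀ (hne i), one_smul]
    · rw [smul_mul_assoc, h2, smul_smul, inv_mul_cancel₀ (hne i), one_smul]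
  obtain ⟨γ, hγ⟩ := hunit
  have hlift : ∀ x, T.F * T.c x = ((-1 : ℂ) ^ (M.dim 1 + 1)) • (T.c (M.F x) * T.F) := by
    intro x
    refine LinearMap.ext fun s => ?_
    rw [Module.End.mul_apply, T.lift, LinearMap.smul_apply, Module.End.mul_apply]
  have hsq : ((-1 : ℂ) ^ (M.dim 1 + 1)) * ((-1 : ℂ) ^ (M.dim 1 + 1)) = 1 := by rw [← mul_pow]; simp
  obtain ⟨κ, hκ⟩ := T.irr (T.F * (γ⁻¹ : (Module.End ℂ S)ˣ)) (by
    intro x s
    have h1 := hcomm (M.F x)
    rw [M.F_sq, ← hγ] at h1
    -- `γ⁻¹ c x = (-1)^(m+1) c (F x) γ⁻¹`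
    have h2 : (γ⁻¹ : (Module.End ℂ S)ˣ) * T.c x =
        ((-1 : ℂ) ^ (M.dim 1 + 1)) • (T.c (M.F x) * ((γ⁻¹ : (Module.End ℂ S)ˣ) : Module.End ℂ S)) := by
      rw [Units.inv_mul_eq_iff_eq_mul, mul_smul_comm, ← mul_assoc, ← smul_mul_assoc, ← h1, mul_assoc,
        Units.mul_inv, mul_one]
    have h3 : T.F * ((γ⁻¹ : (Module.End ℂ S)ˣ) : Module.End ℂ S) * T.c x =
        T.c x * (T.F * ((γ⁻¹ : (Module.End ℂ S)ˣ) : Module.End ℂ S)) := by
      rw [mul_assoc, h2, mul_smul_comm, ← mul_assoc, hlift, M.F_sq, smul_mul_assoc, smul_smul, hsq, one_smul, mul_assoc]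
    have := LinearMap.congr_fun h3 s
    simpa [Module.End.mul_apply] using this)
  have hF : T.F = κ • lp T.c (List.ofFn e) := by
    refine LinearMap.ext fun s => ?_
    have h4 := hκ ((γ : Module.End ℂ S) s)
    rw [Module.End.mul_apply, ← Module.End.mul_apply _ (γ : Module.End ℂ S), Units.inv_mul, Module.End.one_apply] at h4
    rw [h4, hγ, LinearMap.smul_apply]
  have hκ0 : κ ≠ 0 := by
    rintro rfl
    exact T.F_ne (by rw [hF, zero_smul])
  -- a nonzero rational vector
  have hB : ∀ l : List U, (∀ x ∈ l, x ∈ M.B) → ∀ s ∈ T.B, lp T.c l s ∈ T.B := by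
    intro l
    induction l with
    | nil => intro _ s hs; simpa using hs
    | cons x l ih =>
      intro hl s hs
      rw [lp_cons, Module.End.mul_apply]
      exact T.c_B x (hl x (by simp)) _ (ih (fun y hy => hl y (by simp [hy])) s hs)
  obtain ⟨s, hs, hs0⟩ : ∃ s ∈ T.B, s ≠ 0 := by
    by_contra hcon
    push Not at hcon
    apply T.F_ne
    have h5 : (⊤ : Submodule ℂ S) ≤ ⊥ := by
      rw [← T.B_rat.span_eq_top, Submodule.span_le]
      intro s hs
      simpa using hcon s hs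
    refine LinearMap.ext fun s => ?_
    have : s = 0 := by simpa using h5 (Submodule.mem_top : s ∈ ⊤)
    rw [this, map_zero, map_zero]
  have h6 : lp T.c (List.ofFn e) s ∈ T.B := by
    apply hB _ _ s hs
    intro x hx
    rw [List.mem_ofFn] at hx
    obtain ⟨i, rfl⟩ := hx
    exact (he i).1
  have h7 : lp T.c (List.ofFn e) s ≠ 0 := by
    intro h8
    apply hs0
    rw [← hγ] at h8
    have := congrArg (fun t => ((γ⁻¹ : (Module.End ℂ S)ˣ) : Module.End ℂ S) t) h8
    simpa [← Module.End.mul_apply] using this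
  obtain ⟨q, hq⟩ := T.B_rat.rat_smul h6 h7 (κ := κ) (by
    have := T.F_B s hs
    rw [hF, LinearMap.smul_apply] at this
    exact this)
  refine ⟨q, ?_, by rw [← hq]; exact hF, ?_⟩
  · rintro rfl
    exact hκ0 (by rw [hq]; simp)
  · rw [hF, ← hγ]
    intro s t hst
    rw [LinearMap.smul_apply, LinearMap.smul_apply] at hst
    have h1 := smul_right_injective _ hκ0 hst
    have h2 := congrArg (fun t => ((γ⁻¹ : (Module.End ℂ S)ˣ) : Module.End ℂ S) t) h1
    simpa [← Module.End.mul_apply] using h2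

end Pool.Agent.H15.SP
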