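import Pool.Agent.H15.SP.Lift

/-! The period of an orthogonal motive and the extremal vectors of the spinor module. -/

set_option autoImplicit false

namespace Pool.Agent.H15.SP

open Module

section nonvanishing

variable {U : Type} [AddCommGroup U] [Module ℂ U]
variable {S : Type} [AddCommGroup S] [Module ℂ S]
variable {c : U →ₗ[ℂ] Module.End ℂ S} {b : LinearMap.BilinForm ℂ U}

/-- the idempotents -/
noncomputable def idem (c : U →ₗ[ℂ] Module.End ℂ S) {m : ℕ} (y z : Fin m → U) (i : Fin m) : Module.End ℂ S :=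
  c (z i) * c (y i)

lemma idem_comm (h : Cl c b) {m : ℕ} {y z : Fin m → U} (hyy : ∀ i j, b (y i) (y j) = 0)
    (hyz : ∀ i j, b (y i) (z j) = if i = j then 1 / 2 else 0) {i j : Fin m} (hij : j ≠ i) :
    idem c y z i * c (y j) = c (y j) * idem c y z i := by
  have h1 : c (y i) * c (y j) = -(c (y j) * c (y i)) := by
    rw [h.swap, hyy, mul_zero, zero_smul, zero_sub]
  have h2 : c (z i) * c (y j) = -(c (y j) * c (z i)) := by
    rw [h.swap, h.1, hyz, if_neg hij, mul_zero, zero_smul, zero_sub]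
  rw [idem, mul_assoc, h1, mul_neg, ← mul_assoc, h2, neg_mul, neg_neg, mul_assoc]

lemma idem_list_comm (h : Cl c b) {m : ℕ} {y z : Fin m → U} (hyy : ∀ i j, b (y i) (y j) = 0)
    (hyz : ∀ i j, b (y i) (z j) = if i = j then 1 / 2 else 0) (l : List (Fin m)) (j : Fin m) (hj : j ∉ l) :
    (l.map (idem c y z)).prod * c (y j) = c (y j) * (l.map (idem c y z)).prod := by
  induction l with
  | nil => simp
  | cons i l ih =>
    rw [List.map_cons, List.prod_cons, mul_assoc, ih (fun hh => hj (by simp [hh])), ← mul_assoc,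
      idem_comm h hyy hyz (fun hh => hj (by simp [hh])), mul_assoc]

lemma idem_list_zero (h : Cl c b) {m : ℕ} {y z : Fin m → U} (hyy : ∀ i j, b (y i) (y j) = 0)
    (hyz : ∀ i j, b (y i) (z j) = if i = j then 1 / 2 else 0) (l : List (Fin m)) (hl : l.Nodup) (j : Fin m)
    (hj : j ∈ l) : (l.map (idem c y z)).prod * c (y j) = 0 := by
  induction l with
  | nil => simp at hj
  | cons i l ih =>
    rw [List.map_cons, List.prod_cons, mul_assoc]
    rw [List.nodup_cons] at hl
    by_cases hjl : j ∈ l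
    · rw [ih hl.2 hjl, mul_zero]
    · have hji : j = i := by
        rcases List.mem_cons.1 hj with h1 | h1
        · exact h1
        · exact absurd h1 hjl
      subst hji
      rw [idem_list_comm h hyy hyz l j hjl, idem, ← mul_assoc, mul_assoc (c (z j)), h.2, hyy, zero_smul, mul_zero,
        zero_mul]

lemma idem_list_fix (h : Cl c b) {m : ℕ} {y z : Fin m → U}
    (hyz : ∀ i j, b (y i) (z j) = if i = j then 1 / 2 else 0) (l : List (Fin m)) {t : S}
    (ht : ∀ i, c (z i) t = 0) : (l.map (idem c y z)).prod t = t := by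
  induction l with
  | nil => simp
  | cons i l ih =>
    rw [List.map_cons, List.prod_cons, Module.End.mul_apply, ih, idem, h.swap, h.1, hyz, if_pos rfl,
      LinearMap.sub_apply, Module.End.mul_apply, ht, map_zero, sub_zero]
    simp

lemma eq_zero_of_mem_img (h : Cl c b) {m : ℕ} {y z : Fin m → U} (hyy : ∀ i j, b (y i) (y j) = 0)
    (hyz : ∀ i j, b (y i) (z j) = if i = j then 1 / 2 else 0) {K : Submodule ℂ U}
    (hK : ∀ x ∈ K, ∃ a : Fin m → ℂ, x = ∑ i, a i • y i) {t : S} (ht : ∀ i, c (z i) t = 0) (htK : t ∈ img c K) :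
    t = 0 := by
  have h1 : ∀ u ∈ img c K, ((List.finRange m).map (idem c y z)).prod u = 0 := by
    intro u hu
    induction hu using Submodule.span_induction with
    | mem u hu =>
      obtain ⟨x, hx, s, rfl⟩ := hu
      obtain ⟨a, rfl⟩ := hK x hx
      rw [← Module.End.mul_apply, map_sum, Finset.mul_sum]
      rw [Finset.sum_eq_zero, LinearMap.zero_apply]
      intro i _
      rw [map_smul, mul_smul_comm, idem_list_zero h hyy hyz _ (List.nodup_finRange m) i (List.mem_finRange i), smul_zero]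
    | zero => simp
    | add x y _ _ h2 h3 => rw [map_add, h2, h3, add_zero]
    | smul a x _ h2 => rw [map_smul, h2, smul_zero]
  rw [← idem_list_fix h hyz (List.finRange m) ht]
  exact h1 t htK

/-- the determinant formula for products -/
lemma det_formula [FiniteDimensional ℂ U] (h : Cl c b) (hb : ∀ x, (∀ y, b x y = 0) → x = 0) (K : Submodule ℂ U)
    (s : S) (hs : s ∈ top c K) (n : ℕ) (hn : n = finrank ℂ K) (e v : Fin n → U) (A : Matrix (Fin n) (Fin n) ℂ)
    (hA : ∀ j, ∀ x ∈ K, b x (e j - ∑ k, A k j • v k) = 0) :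
    lp c (List.ofFn e) s - A.det • lp c (List.ofFn v) s ∈ img c K := by
  subst hn
  have := altMap_det h hb K s hs e v A hA
  rw [altMap_apply, altMap_apply, ← map_smul, ← sub_eq_zero, ← map_sub, Submodule.mkQ_apply,
    Submodule.Quotient.mk_eq_zero] at this
  exact this

end nonvanishing

variable {U : Type} [AddCommGroup U] [Module ℂ U] [Module ℚ U]
variable {S : Type} [AddCommGroup S] [Module ℂ S] [Module ℚ S]
variable {b : LinearMap.BilinForm ℂ U}

lemma IsOrth.iso {M : Mot U} (hM : IsOrth M b) {i j : ℤ} (hij : 0 < i + j) {x y : U} (hx : x ∈ M.fil i)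
    (hy : y ∈ M.fil j) : b x y = 0 := by
  have h1 : ∀ p, i ≤ p → ∀ x ∈ M.H p, b x y = 0 := by
    intro p hp x hx
    have h2 : M.fil j ≤ LinearMap.ker (b x) := by
      refine iSup₂_le fun q hq => ?_
      intro z hz
      exact LinearMap.mem_ker.2 (hM.hodge p q (by omega) x hx z hz)
    exact LinearMap.mem_ker.1 (h2 hy)
  have h2 : M.fil i ≤ LinearMap.ker (b.flip y) := by
    refine iSup₂_le fun p hp => ?_
    intro z hz
    exact LinearMap.mem_ker.2 (h1 p hp z hz)
  exact LinearMap.mem_ker.1 (h2 hx)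

lemma IsOrth.pair {M : Mot U} (hM : IsOrth M b) (hc : Crit M) {x : U} (hx : x ∈ M.fil 1)
    (h : ∀ y ∈ M.fil 1, b y (M.F x) = 0) : x = 0 := by
  have h1 : M.F x = 0 := by
    apply hM.nondeg
    intro u
    rw [hM.symm]
    obtain ⟨a, ha, k, hk, a', ha', rfl⟩ := split hc.hw u
    rw [map_add, map_add, LinearMap.add_apply, LinearMap.add_apply, h a ha, hM.frob a' x,
      hM.iso (by norm_num) ha' hx]
    have h4 := hM.frob k (M.F x)
    rw [M.F_sq, hc.mid k hk] at h4
    have h5 : b k x = 0 := hM.iso (i := 0) (j := 1) (by norm_num) (M.H_le_fil le_rfl hk) hx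
    rw [← h4, map_neg, LinearMap.neg_apply, h5]
    simp
  rw [← M.F_sq x, h1, map_zero]

section

variable [FiniteDimensional ℂ U]

/-- dual bases of `F^1` and `F_∞ F^1` -/
lemma IsOrth.exists_dual {M : Mot U} (hM : IsOrth M b) (hc : Crit M) : ∃ (m : ℕ) (y z : Fin m → U),
    (∀ i, y i ∈ M.fil 1) ∧ (∀ x ∈ M.fil 1, ∃ a : Fin m → ℂ, x = ∑ i, a i • y i) ∧
    (∀ i, ∃ x ∈ M.fil 1, z i = M.F x) ∧ ∀ i j, b (y i) (z j) = if i = j then 1 / 2 else 0 := by
  let y := finBasis ℂ (M.fil 1)
  let L : M.fil 1 →ₗ[ℂ] Module.Dual ℂ (M.fil 1) :=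
    LinearMap.mk₂ ℂ (fun (x y : M.fil 1) => b (y : U) (M.F (x : U)))
      (by intro x x' y; simp) (by intro a x y; simp) (by intro x y y'; simp) (by intro a x y; simp)
  have hL : ∀ x y : M.fil 1, L x y = b (y : U) (M.F (x : U)) := fun x y => rfl
  have hinj : Function.Injective L := by
    rw [← LinearMap.ker_eq_bot, LinearMap.ker_eq_bot']
    intro x hx
    apply Subtype.ext
    apply hM.pair hc x.2
    intro y hy
    rw [← hL x ⟨y, hy⟩, hx, LinearMap.zero_apply]
  have hsurj : Function.Surjective L :=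
    (LinearMap.injective_iff_surjective_of_finrank_eq_finrank Subspace.dual_finrank_eq.symm).1 hinj
  choose z hz using fun j => hsurj ((1 / 2 : ℂ) • y.coord j)
  refine ⟨_, fun i => (y i : U), fun j => M.F (z j : U), fun i => (y i).2, ?_, fun i => ⟨z i, (z i).2, rfl⟩, ?_⟩
  · intro x hx
    refine ⟨y.repr ⟨x, hx⟩, ?_⟩
    have := congrArg Subtype.val (y.sum_repr ⟨x, hx⟩)
    simp only [Submodule.coe_sum, Submodule.coe_smul] at this
    exact this.symm
  · intro i j
    rw [← hL (z j) (y i), hz]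
    simp [Finsupp.single_apply]

/-- the nonvanishing -/
lemma Spinor.nonvanishing {M : Mot U} (hM : IsOrth M b) (hc : Crit M) (T : Spinor M b S) {s : S}
    (hs : s ∈ top T.c (M.fil 1)) (hs' : T.F s ∈ Pool.Agent.H15.SP.img T.c (M.fil 1)) : T.F s = 0 := by
  obtain ⟨m, y, z, hy, hspan, hz, hyz⟩ := hM.exists_dual hc
  refine eq_zero_of_mem_img (T.cl hM) (fun i j => hM.iso (by norm_num) (hy i) (hy j)) hyz hspan ?_ hs'
  intro i
  obtain ⟨x, hx, e⟩ := hz i
  have h1 := T.lift x s
  rw [hs x hx, map_zero] at h1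
  rw [e]
  have h2 : ((-1 : ℂ) ^ (M.dim 1 + 1)) ≠ 0 := pow_ne_zero _ (by norm_num)
  exact (smul_eq_zero.1 h1.symm).resolve_left h2

end

end Pool.Agent.H15.SP
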