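import Pool.Agent.H15.SP.Pairing

/-! Motives of type `G₂`. -/

set_option autoImplicit false

namespace Pool.Agent.H15.SP

open Module

section algebra

variable {U : Type} [AddCommGroup U] [Module ℂ U]
variable {b : LinearMap.BilinForm ℂ U} {m : U →ₗ[ℂ] U →ₗ[ℂ] U}

lemma m_anti (halt : ∀ x, m x x = 0) (x y : U) : m x y = -m y x := by
  have h := halt (x + y)
  rw [map_add, map_add, LinearMap.add_apply, LinearMap.add_apply, halt, halt, zero_add, add_zero] at h
  exact eq_neg_of_add_eq_zero_right h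

lemma m_polar (hsymm : ∀ x y, b x y = b y x) (hsq : ∀ x y, m x (m x y) = b x y • x - b x x • y) (x y z : U) :
    m x (m y z) + m y (m x z) = b x z • y + b y z • x - (2 * b x y) • z := by
  have h := hsq (x + y) z
  simp only [map_add, LinearMap.add_apply, hsq, add_smul, smul_add] at h
  rw [hsymm y x] at h
  have e : m x (m y z) + m y (m x z) = (b x z • x - b x x • z + m y (m x z) + (m x (m y z) + (b y z • y - b y y • z))) -
      (b x z • x - b x x • z) - (b y z • y - b y y • z) := by abel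
  rw [e, h, two_mul, add_smul]
  abel

/-- the space of vectors orthogonal to three vectors is not zero -/
lemma exists_perp [FiniteDimensional ℂ U] (hrank : finrank ℂ U = 7) (x₁ x₂ x₃ : U) :
    ∃ y : U, y ≠ 0 ∧ b x₁ y = 0 ∧ b x₂ y = 0 ∧ b x₃ y = 0 := by
  let g : U →ₗ[ℂ] (Fin 3 → ℂ) := LinearMap.pi ![b x₁, b x₂, b x₃]
  have hk : LinearMap.ker g ≠ ⊥ := by
    apply LinearMap.ker_ne_bot_of_finrank_lt
    rw [hrank]
    simp
  obtain ⟨y, hy, hy0⟩ := (Submodule.ne_bot_iff _).1 hk
  refine ⟨y, hy0, ?_, ?_, ?_⟩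
  · simpa [g] using congrFun (LinearMap.mem_ker.1 hy) 0
  · simpa [g] using congrFun (LinearMap.mem_ker.1 hy) 1
  · simpa [g] using congrFun (LinearMap.mem_ker.1 hy) 2

lemma no_assoc [FiniteDimensional ℂ U] (hrank : finrank ℂ U = 7) (hsymm : ∀ x y, b x y = b y x)
    (hnd : ∀ x, (∀ y, b x y = 0) → x = 0)
    (halt : ∀ x, m x x = 0) (hcyc : ∀ x y z, b (m x y) z = b x (m y z))
    (hsq : ∀ x y, m x (m x y) = b x y • x - b x x • y) (u : U)
    (hE : ∀ x y, -(b x y • u) + m (m x y) u = -(b y u • x) + m x (m y u)) : u = 0 := by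
  by_contra hu
  have hanti := m_anti halt
  have hpolar := m_polar hsymm hsq
  have huu : ∀ y, b u (m u y) = 0 := fun y => by rw [← hcyc, halt]; simp
  by_cases h0 : b u u = 0
  · obtain ⟨x', hx'⟩ : ∃ x, b u x ≠ 0 := by
      by_contra hcon
      push Not at hcon
      exact hu (hnd u hcon)
    obtain ⟨x, hx⟩ : ∃ x, b u x = 1 := ⟨(b u x')⁻¹ • x', by rw [map_smul, smul_eq_mul, inv_mul_cancel₀ hx']⟩
    -- the space `Y`
    have key : ∀ y, b x y = 0 → b u y = 0 → b (m x u) y = 0 → y = m x (m y u) := by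
      intro y h1 h2 h3
      have e1 := hE x y
      rw [h1, hsymm y u, h2, zero_smul, zero_smul, neg_zero, zero_add, zero_add] at e1
      have e2 := hpolar x u y
      rw [h1, h2, hsymm x u, hx, zero_smul, zero_smul, zero_add, zero_sub, mul_one] at e2
      -- `m x (m u y) + m u (m x y) = -2 y`
      rw [hanti (m x y) u] at e1
      have e3 : m x (m u y) = -m x (m y u) := by rw [hanti u y, map_neg]
      rw [e3, ← e1] at e2
      -- `m u (m x y) + m u (m x y) = - 2 y`
      rw [neg_neg, ← two_smul ℂ (m u (m x y))] at e2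
      have e4 : m u (m x y) = -y := by
        have := congrArg (fun z => (1 / 2 : ℂ) • z) e2
        simp only [smul_smul, smul_neg] at this
        norm_num at this
        exact this
      rw [← e1, e4, neg_neg]
    obtain ⟨y, hy0, h1, h2, h3⟩ := exists_perp (b := b) hrank x u (m x u)
    -- `y' = m u y`
    have k1 : b x (m u y) = 0 := by rw [← hcyc]; exact h3
    have k2 : b u (m u y) = 0 := huu y
    have k3 : b (m x u) (m u y) = 0 := by
      rw [hcyc, hsq, map_sub, map_smul, map_smul, h0, h2]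
      simp
    have k4 := key (m u y) k1 k2 k3
    have k5 : m (m u y) u = 0 := by rw [hanti, hsq, h0, h2]; simp
    rw [k5, map_zero] at k4
    have k6 := key y h1 h2 h3
    rw [hanti y u, k4, neg_zero, map_zero] at k6
    exact hy0 k6
  · -- a vector `x` orthogonal to `u` which is not isotropic
    obtain ⟨x, hx, hxx⟩ : ∃ x, b u x = 0 ∧ b x x ≠ 0 := by
      by_contra hcon
      push Not at hcon
      have hiso : ∀ x y, b u x = 0 → b u y = 0 → b x y = 0 := by
        intro x y hx hy
        have e := hcon (x + y) (by rw [map_add, hx, hy, add_zero])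
        rw [map_add, map_add, LinearMap.add_apply, LinearMap.add_apply, hcon x hx, hcon y hy, hsymm y x] at e
        linear_combination e / 2
      obtain ⟨x, hx0, hx, -, -⟩ := exists_perp (b := b) hrank u u u
      apply hx0
      apply hnd
      intro z
      have e : z = (z - (b u z / b u u) • u) + (b u z / b u u) • u := by abel
      rw [e, map_add, map_smul, hsymm x u, hx, smul_zero, add_zero]
      apply hiso x _ hx
      rw [map_sub, map_smul, smul_eq_mul, div_mul_cancel₀ _ h0, sub_self]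
    obtain ⟨y, hy0, h1, h2, h3⟩ := exists_perp (b := b) hrank x u (m x u)
    have e1 := hE x y
    rw [h1, hsymm y u, h2, zero_smul, zero_smul, neg_zero, zero_add, zero_add] at e1
    have e2 := hpolar x u y
    rw [h1, h2, hsymm x u, hx, mul_zero, zero_smul, zero_smul, zero_smul, zero_add, sub_zero] at e2
    rw [hanti (m x y) u] at e1
    have e3 : m x (m u y) = -m x (m y u) := by rw [hanti u y, map_neg]
    rw [e3, ← e1, neg_neg, ← two_smul ℂ (m u (m x y))] at e2
    have e4 : m u (m x y) = 0 := by simpa using e2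
    rw [e4, neg_zero] at e1
    have e5 := hsq x (m y u)
    rw [← e1, map_zero] at e5
    have e6 : b x (m y u) = 0 := by
      rw [hanti y u, map_neg, ← hcyc, h3, neg_zero]
    rw [e6, zero_smul, zero_sub] at e5
    have e7 : m y u = 0 := by
      have := neg_eq_zero.1 e5.symm
      exact (smul_eq_zero.1 this).resolve_left hxx
    have e8 := hsq u y
    rw [hanti u y, e7, neg_zero, map_zero, h2, zero_smul, zero_sub] at e8
    have e9 := neg_eq_zero.1 e8.symm
    exact hy0 ((smul_eq_zero.1 e9).resolve_left h0)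

end algebra

variable {U : Type} [AddCommGroup U] [Module ℂ U] [Module ℚ U]
variable {b : LinearMap.BilinForm ℂ U} {m : U →ₗ[ℂ] U →ₗ[ℂ] U}

/-- the octonionic Clifford multiplication on `ℂ × U` -/
noncomputable def octo (b : LinearMap.BilinForm ℂ U) (m : U →ₗ[ℂ] U →ₗ[ℂ] U) : U →ₗ[ℂ] Module.End ℂ (ℂ × U) :=
  LinearMap.mk₂ ℂ (fun x s => (-b x s.2, s.1 • x + m x s.2))
    (by
      intro x x' s
      simp only [map_add, LinearMap.add_apply, smul_add, Prod.mk_add_mk, Prod.mk.injEq]
      exact ⟨by ring, by abel⟩)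
    (by
      intro a x s
      simp only [map_smul, LinearMap.smul_apply, Prod.smul_mk, smul_eq_mul, smul_add, Prod.mk.injEq]
      exact ⟨by ring, by rw [smul_comm]⟩)
    (by
      intro x s s'
      simp only [Prod.snd_add, Prod.fst_add, map_add, add_smul, Prod.mk_add_mk, Prod.mk.injEq]
      exact ⟨by ring, by abel⟩)
    (by
      intro a x s
      simp only [Prod.smul_snd, Prod.smul_fst, map_smul, smul_eq_mul, Prod.smul_mk, smul_add, Prod.mk.injEq, mul_smul]
      exact ⟨by ring, trivial⟩)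

omit [Module ℚ U] in
lemma octo_apply (x : U) (s : ℂ × U) : octo b m x s = (-b x s.2, s.1 • x + m x s.2) := rfl

lemma isRat_prod {L : Submodule ℚ U} (hL : IsRat L) :
    IsRat ((LinearMap.range (Algebra.linearMap ℚ ℂ)).prod L : Submodule ℚ (ℂ × U)) := by
  obtain ⟨n, v, rfl⟩ := hL
  let w : Basis (Fin 1 ⊕ Fin n) ℂ (ℂ × U) := (Basis.singleton (Fin 1) ℂ).prod v
  refine ⟨1 + n, w.reindex finSumFinEquiv, ?_⟩
  have h1 : Set.range (w.reindex finSumFinEquiv) = Set.range w := by
    rw [Basis.range_reindex]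
  rw [h1]
  have hw1 : ∀ i, w (Sum.inl i) = (1, 0) := by intro i; simp [w]
  have hw2 : ∀ i, w (Sum.inr i) = (0, v i) := by intro i; simp [w]
  apply le_antisymm
  · rintro ⟨a, x⟩ ⟨⟨q, hq⟩, hx⟩
    have h2 : ((a, x) : ℂ × U) = q • (1, 0) + (0, x) := by
      have hq' : (q : ℂ) = a := by simpa using hq
      simp only [Prod.smul_mk, Prod.mk_add_mk, smul_zero, zero_add, add_zero]
      rw [← hq']
      simp [Rat.smul_def]
    rw [h2]
    refine Submodule.add_mem _ (Submodule.smul_mem _ _ (Submodule.subset_span ⟨Sum.inl 0, hw1 0⟩)) ?_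
    have h3 : (Submodule.span ℚ (Set.range v)) ≤ (Submodule.span ℚ (Set.range w)).comap (LinearMap.inr ℚ ℂ U) := by
      rw [Submodule.span_le]
      rintro _ ⟨i, rfl⟩
      exact Submodule.subset_span ⟨Sum.inr i, hw2 i⟩
    exact h3 hx
  · rw [Submodule.span_le]
    rintro _ ⟨i | i, rfl⟩
    · rw [hw1]
      exact ⟨⟨1, by simp⟩, Submodule.zero_mem _⟩
    · rw [hw2]
      exact ⟨⟨0, by simp⟩, Submodule.subset_span ⟨i, rfl⟩⟩

lemma isOrth_neg {M : Mot U} (h : IsOrth M b) : IsOrth M (-b) where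
  weight := h.weight
  symm x y := by rw [LinearMap.neg_apply, LinearMap.neg_apply, LinearMap.neg_apply, LinearMap.neg_apply, h.symm]
  nondeg x hx := h.nondeg x fun y => by
    have := hx y
    rwa [LinearMap.neg_apply, LinearMap.neg_apply, neg_eq_zero] at this
  betti x hx y hy := by
    obtain ⟨q, hq⟩ := h.betti x hx y hy
    exact ⟨-q, by rw [LinearMap.neg_apply, LinearMap.neg_apply, hq]; push_cast; rfl⟩
  deRham x hx y hy := by
    obtain ⟨q, hq⟩ := h.deRham x hx y hy
    exact ⟨-q, by rw [LinearMap.neg_apply, LinearMap.neg_apply, hq]; push_cast; rfl⟩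
  frob x y := by rw [LinearMap.neg_apply, LinearMap.neg_apply, LinearMap.neg_apply, LinearMap.neg_apply, h.frob]
  hodge p q hpq x hx y hy := by
    rw [LinearMap.neg_apply, LinearMap.neg_apply, h.hodge p q hpq x hx y hy, neg_zero]

variable [IsScalarTower ℚ ℂ U] [FiniteDimensional ℂ U]

/-- the octonions as a spinor module -/
noncomputable def octoSpinor {M : Mot U} (h : IsCross M b m) (hdim : M.dim 1 = 3) : Spinor M (-b) (ℂ × U) where
  B := (LinearMap.range (Algebra.linearMap ℚ ℂ)).prod M.B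
  D := (LinearMap.range (Algebra.linearMap ℚ ℂ)).prod M.D
  B_rat := isRat_prod M.B_rat
  D_rat := isRat_prod M.D_rat
  c := octo b m
  clifford := by
    rintro x ⟨a, y⟩
    have h1 : b x (m x y) = 0 := by rw [← h.cyc, h.alt]; simp
    refine Prod.ext ?_ ?_
    · simp only [octo_apply, map_add, map_smul, LinearMap.neg_apply, smul_eq_mul, h1, Prod.smul_fst]
      ring
    · simp only [octo_apply, map_add, map_smul, h.alt, h.sq, LinearMap.neg_apply, Prod.smul_snd, Prod.snd_neg,
        smul_zero, neg_smul]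
      abel
  c_B := by
    rintro x hx ⟨a, y⟩ ⟨⟨q, hq⟩, hy⟩
    obtain ⟨r, hr⟩ := h.orth.betti x hx y hy
    refine ⟨⟨-r, ?_⟩, ?_⟩
    · simp [octo_apply, hr]
    · have h1 : a = (q : ℂ) := by simpa using hq.symm
      simp only [octo_apply, h1, Rat.cast_smul_eq_qsmul]
      exact M.B.add_mem (M.B.smul_mem _ hx) (h.betti x hx y hy)
  c_D := by
    rintro x hx ⟨a, y⟩ ⟨⟨q, hq⟩, hy⟩
    obtain ⟨r, hr⟩ := h.orth.deRham x hx y hy
    refine ⟨⟨-r, ?_⟩, ?_⟩
    · simp [octo_apply, hr]
    · have h1 : a = (q : ℂ) := by simpa using hq.symm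
      simp only [octo_apply, h1, Rat.cast_smul_eq_qsmul]
      exact M.D.add_mem (M.D.smul_mem _ hx) (h.deRham x hx y hy)
  irr := by
    intro T hT
    obtain ⟨t, u, htu⟩ : ∃ t u, T (1, 0) = (t, u) := ⟨_, _, rfl⟩
    have h1 : ∀ x, T (0, x) = (-b x u, t • x + m x u) := by
      intro x
      have h2 := hT x (1, 0)
      rw [octo_apply, octo_apply, htu] at h2
      simpa using h2
    have h2 : u = 0 := by
      apply no_assoc h.rank h.orth.symm h.orth.nondeg h.alt h.cyc h.sq
      intro x y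
      have h3 := hT x (0, y)
      have h4 : octo b m x (0, y) = (-b x y) • ((1 : ℂ), (0 : U)) + (0, m x y) := by
        rw [octo_apply]; simp
      rw [h4, map_add, map_smul, htu, h1, h1, octo_apply] at h3
      have h5 := congrArg Prod.snd h3
      simp only [Prod.snd_add, Prod.snd_neg, Prod.smul_snd, map_add, map_smul, neg_smul] at h5
      have h6 : -(b x y • u) + m (m x y) u = (-(b x y • u) + (t • m x y + m (m x y) u)) - t • m x y := by abel
      rw [h6, h5]
      abel
    refine ⟨t, ?_⟩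
    rintro ⟨a, x⟩
    have h3 : ((a, x) : ℂ × U) = a • ((1 : ℂ), (0 : U)) + (0, x) := by simp
    rw [h3, map_add, map_smul, htu, h1, h2]
    simp [mul_comm]
  F := LinearMap.prodMap LinearMap.id M.F
  F_ne := by
    intro h0
    have := LinearMap.congr_fun h0 (1, 0)
    simp at this
  F_B := by
    rintro ⟨a, y⟩ ⟨hq, hy⟩
    exact ⟨hq, M.F_B y hy⟩
  lift := by
    rintro x ⟨a, y⟩
    rw [hdim, octo_apply, LinearMap.prodMap_apply, LinearMap.prodMap_apply, octo_apply]
    simp only [LinearMap.id_apply, map_add, map_smul, h.frob, h.orth.frob]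
    norm_num

omit [IsScalarTower ℚ ℂ U] [FiniteDimensional ℂ U] in
lemma IsCross.m_fil {M : Mot U} (h : IsCross M b m) {i j : ℤ} {x y : U} (hx : x ∈ M.fil i) (hy : y ∈ M.fil j) :
    m x y ∈ M.fil (i + j) := by
  have h1 : ∀ p, i ≤ p → ∀ x ∈ M.H p, m x y ∈ M.fil (i + j) := by
    intro p hp x hx
    have h2 : M.fil j ≤ (M.fil (i + j)).comap (m x) := by
      refine iSup₂_le fun q hq => ?_
      intro z hz
      exact M.H_le_fil (by omega) (h.hodge p q x hx z hz)
    exact h2 hy
  have h2 : M.fil i ≤ (M.fil (i + j)).comap (m.flip y) := by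
    refine iSup₂_le fun p hp => ?_
    intro z hz
    exact h1 p hp z hz
  exact h2 hx

omit [IsScalarTower ℚ ℂ U] in
lemma dim_three {M : Mot U} (hrank : finrank ℂ U = 7) (hc : Crit M) (h0 : finrank ℂ (M.H 0) = 1) :
    finrank ℂ (M.fil 1) = 3 ∧ finrank ℂ (M.fil 0) = 4 := by
  have h1 : finrank ℂ (M.fil 0) = 1 + finrank ℂ (M.fil 1) := by
    rw [M.fil_eq 0, ← h0]
    have h2 := Submodule.finrank_sup_add_finrank_inf_eq (M.H 0) (M.fil (0 + 1))
    have h3 : M.H 0 ⊓ M.fil (0 + 1) = ⊥ := by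
      rw [inf_comm]
      exact ((M.disj (show (0 : ℤ) < 0 + 1 by norm_num)).mono_right (M.H_le_low le_rfl)).eq_bot
    rw [h3, finrank_bot, add_zero] at h2
    rw [h2, zero_add]
  have h2 := finrank_total hc
  omega

/-- The period of a motive of type `G₂`. -/
theorem g2_period {M : Mot U} (h : IsCross M b m) (hM : M.Critical) (h0 : finrank ℂ (M.H 0) = 1) {ω : U}
    (hω : ω ∈ M.D) (hω0 : ω ≠ 0) {p : ℤ} (hp : M.fil p = Submodule.span ℂ {ω}) {c : ℂ} (hc : M.IsPeriod 1 c) :
    ∃ q : ℚ, q ≠ 0 ∧ b ω (M.F ω) = q * c := by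
  have hcr : Crit M := Crit.of M h.orth.weight hM
  obtain ⟨d1, d0⟩ := dim_three h.rank hcr h0
  have hdim : M.dim 1 = 3 := by rw [dim_one hcr, d1]
  have hωp : ω ∈ M.fil p := by rw [hp]; exact Submodule.mem_span_singleton_self ω
  have hp1 : 1 ≤ p := by
    by_contra hcon
    have h1 := Submodule.finrank_mono (M.fil_anti (show p ≤ 0 by omega))
    rw [hp, d0] at h1
    have h2 := finrank_span_le_card (R := ℂ) ({ω} : Set U)
    simp at h2
    omega
  have hb1 : ∀ y ∈ M.fil 1, b y ω = 0 := fun y hy => h.orth.iso (by omega) hy hωp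
  have hm1 : ∀ y ∈ M.fil 1, m y ω = 0 := by
    intro y hy
    have h1 : m y ω ∈ M.fil p := M.fil_anti (by omega) (h.m_fil hy hωp)
    rw [hp, Submodule.mem_span_singleton] at h1
    obtain ⟨a, ha⟩ := h1
    have h2 := h.sq y ω
    rw [hb1 y hy, h.orth.iso (by norm_num) hy hy, zero_smul, zero_smul, sub_zero, ← ha, map_smul, ← ha,
      smul_smul] at h2
    have h3 : a * a = 0 := (smul_eq_zero.1 h2).resolve_right hω0
    rw [← ha, mul_self_eq_zero.1 h3, zero_smul]
  obtain ⟨R, hR, hRF⟩ := main_formula (isOrth_neg h.orth) hcr (octoSpinor h hdim) hc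
  have htop : ((0 : ℂ), ω) ∈ top (octoSpinor h hdim).c (M.fil 1) := by
    intro y hy
    change octo b m y (0, ω) = 0
    rw [octo_apply, hb1 y hy, hm1 y hy]
    simp
  have h1 := hRF _ htop
  -- the functional `ξ (a, z) = b ω z`
  have hξ : ∀ s ∈ Pool.Agent.H15.SP.img (octoSpinor h hdim).c (M.fil 1), b ω s.2 = 0 := by
    intro s hs
    induction hs using Submodule.span_induction with
    | mem s hs =>
      obtain ⟨y, hy, ⟨a, z⟩, rfl⟩ := hs
      change b ω (octo b m y (a, z)).2 = 0
      rw [octo_apply]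
      simp only [map_add, map_smul]
      rw [h.orth.symm ω y, hb1 y hy, ← h.cyc, m_anti h.alt, hm1 y hy]
      simp
    | zero => simp
    | add x y _ _ h2 h3 => rw [Prod.snd_add, map_add, h2, h3, add_zero]
    | smul a x _ h2 => rw [Prod.smul_snd, map_smul, h2, smul_zero]
  have h2 := hξ _ h1
  obtain ⟨-, h3⟩ := hR (0, ω) ⟨⟨0, by simp⟩, hω⟩
  obtain ⟨q, hq⟩ := h.orth.deRham ω hω _ h3
  have h4 : b ω (M.F ω) = q * c := by
    rw [Prod.snd_sub, map_sub, Prod.smul_snd, map_smul, hq, smul_eq_mul, sub_eq_zero] at h2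
    rw [mul_comm, ← h2]
    rfl
  refine ⟨q, ?_, h4⟩
  rintro rfl
  rw [Rat.cast_zero, zero_mul] at h4
  -- then `F ω` is orthogonal to everything
  have h5 : M.F ω = 0 := by
    apply h.orth.nondeg
    intro z
    rw [h.orth.symm]
    have hz : z ∈ M.fil p ⊔ M.low (p - 1) := by rw [M.fil_sup_low]; trivial
    obtain ⟨z1, hz1, z2, hz2, rfl⟩ := Submodule.mem_sup.1 hz
    rw [hp, Submodule.mem_span_singleton] at hz1
    obtain ⟨a, rfl⟩ := hz1
    rw [map_add, LinearMap.add_apply, map_smul, LinearMap.smul_apply, h4, smul_zero, zero_add]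
    rw [← h.orth.frob, M.F_sq]
    refine h.orth.iso (i := M.w - (p - 1)) (j := p) ?_ (M.F_low hz2) hωp
    rw [h.orth.weight]
    omega
  exact hω0 (by rw [← M.F_sq ω, h5, map_zero])

end Pool.Agent.H15.SP
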