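import Pool.Agent.H15.SP.Final

/-! Invariant pairings on the spinor module. -/

set_option autoImplicit false

namespace Pool.Agent.H15.SP

open Module

variable {S : Type} [AddCommGroup S] [Module ℂ S] [Module ℚ S]

/-- a vector as a combination of rational vectors with linearly independent coefficients -/
lemma IsRat.expand {D : Submodule ℚ S} (hD : IsRat D) (s : S) : ∃ (n : ℕ) (θ : Fin n → ℂ) (v : Fin n → S),
    LinearIndependent ℚ θ ∧ (∀ i, v i ∈ D) ∧ s = ∑ i, θ i • v i := by
  obtain ⟨m, d, rfl⟩ := hD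
  let V : Submodule ℚ ℂ := Submodule.span ℚ (Set.range fun k => d.repr s k)
  have : Module.Finite ℚ V := Module.Finite.span_of_finite ℚ (Set.finite_range _)
  let θ := finBasis ℚ V
  let a : Fin m → V := fun k => ⟨d.repr s k, Submodule.subset_span ⟨k, rfl⟩⟩
  have ha : ∀ k, d.repr s k = ∑ l, ((θ.repr (a k) l : ℚ) : ℂ) * (θ l : ℂ) := by
    intro k
    have h1 := congrArg Subtype.val (θ.sum_repr (a k))
    simp only [Submodule.coe_sum, Submodule.coe_smul] at h1
    rw [show d.repr s k = (a k : ℂ) from rfl, ← h1]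
    exact Finset.sum_congr rfl fun l _ => by rw [Rat.smul_def]
  refine ⟨_, fun l => (θ l : ℂ), fun l => ∑ k, ((θ.repr (a k) l : ℚ) : ℂ) • d k,
    θ.linearIndependent.map' V.subtype (Submodule.ker_subtype V), ?_, ?_⟩
  · intro l
    refine Submodule.sum_mem _ fun k _ => ?_
    rw [Rat.cast_smul_eq_qsmul]
    exact Submodule.smul_mem _ _ (Submodule.subset_span ⟨k, rfl⟩)
  · conv_lhs => rw [← d.sum_repr s]
    simp_rw [Finset.smul_sum, smul_smul]
    rw [Finset.sum_comm]
    refine Finset.sum_congr rfl fun k _ => ?_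
    rw [← Finset.sum_smul, ha k]
    congr 1
    exact Finset.sum_congr rfl fun l _ => mul_comm _ _

lemma IsRat.coeff_zero {D : Submodule ℚ S} (hD : IsRat D) {n : ℕ} {θ : Fin n → ℂ} {v : Fin n → S}
    (hθ : LinearIndependent ℚ θ) (hv : ∀ i, v i ∈ D) (h : ∑ i, θ i • v i = 0) (i : Fin n) : v i = 0 := by
  obtain ⟨m, d, rfl⟩ := hD
  have hr : ∀ i k, ∃ q : ℚ, d.repr (v i) k = q := by
    intro i k
    have hL : IsRat (Submodule.span ℚ (Set.range d)) := ⟨m, d, rfl⟩
    have h1 : ∀ x ∈ Submodule.span ℚ (Set.range d), ∃ q : ℚ, d.repr x k = q := by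
      intro x hx
      induction hx using Submodule.span_induction with
      | mem x hx =>
        obtain ⟨j, rfl⟩ := hx
        rw [Basis.repr_self, Finsupp.single_apply]
        split_ifs
        · exact ⟨1, by simp⟩
        · exact ⟨0, by simp⟩
      | zero => exact ⟨0, by simp⟩
      | add x y _ _ h1 h2 =>
        obtain ⟨q, hq⟩ := h1
        obtain ⟨q', hq'⟩ := h2
        exact ⟨q + q', by rw [map_add, Finsupp.add_apply, hq, hq']; push_cast; rfl⟩
      | smul a x _ h1 =>
        obtain ⟨q, hq⟩ := h1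
        refine ⟨a * q, ?_⟩
        rw [← Rat.cast_smul_eq_qsmul ℂ, map_smul, Finsupp.smul_apply, hq, smul_eq_mul]
        push_cast
        rfl
    exact h1 _ (hv i)
  choose q hq using hr
  apply d.repr.injective
  ext k
  rw [map_zero, Finsupp.zero_apply, hq]
  have h1 : ∑ j, (q j k) • θ j = 0 := by
    have h2 := congrArg (fun x => d.repr x k) h
    simp only [map_sum, map_zero, Finsupp.zero_apply, Finsupp.finsetSum_apply, map_smul, Finsupp.smul_apply, hq,
      smul_eq_mul] at h2
    rw [← h2]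
    exact Finset.sum_congr rfl fun j _ => by rw [Rat.smul_def, mul_comm]
  rw [Fintype.linearIndependent_iff.1 hθ (fun j => q j k) h1 i]
  simp

variable {U : Type} [AddCommGroup U] [Module ℂ U] [Module ℚ U] [IsScalarTower ℚ ℂ U]
variable {b : LinearMap.BilinForm ℂ U}

/-- a vector killed by the rational vectors of `F^1` is killed by `F^1` -/
lemma top_of_rat {M : Mot U} (T : Spinor M b S) {s : S} (hs : ∀ y ∈ M.D, y ∈ M.fil 1 → T.c y s = 0) :
    s ∈ top T.c (M.fil 1) := by
  have h1 : M.fil 1 ≤ LinearMap.ker ((LinearMap.applyₗ s).comp T.c) := by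
    have h2 : Submodule.span ℂ ((M.D : Set U) ∩ (M.fil 1 : Set U)) = M.fil 1 := (M.fil_rat 1).symm
    rw [← h2, Submodule.span_le]
    rintro y ⟨hy, hy'⟩
    exact hs y hy hy'
  intro y hy
  exact LinearMap.mem_ker.1 (h1 hy)

lemma pairing_img {M : Mot U} {T : Spinor M b S} {β : S →ₗ[ℂ] S →ₗ[ℂ] ℂ} (hβ : T.IsPairing β) {t : S}
    (ht : t ∈ top T.c (M.fil 1)) {u : S} (hu : u ∈ Pool.Agent.H15.SP.img T.c (M.fil 1)) : β t u = 0 := by
  obtain ⟨η, hη, hadj⟩ := hβ.adj
  induction hu using Submodule.span_induction with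
  | mem u hu =>
    obtain ⟨y, hy, s, rfl⟩ := hu
    have := hadj y t s
    rw [ht y hy, map_zero, LinearMap.zero_apply] at this
    exact (mul_eq_zero.1 this.symm).resolve_left hη
  | zero => simp
  | add x y _ _ h2 h3 => rw [map_add, h2, h3, add_zero]
  | smul a x _ h2 => rw [map_smul, h2, smul_zero]

lemma pairing_exists {M : Mot U} {T : Spinor M b S} {β : S →ₗ[ℂ] S →ₗ[ℂ] ℂ} (hβ : T.IsPairing β)
    {u : S} (hu : u ∉ Pool.Agent.H15.SP.img T.c (M.fil 1)) : ∃ t ∈ T.D, t ∈ top T.c (M.fil 1) ∧ β t u ≠ 0 := by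
  obtain ⟨η, hη, hadj⟩ := hβ.adj
  have hfin : FiniteDimensional ℂ S := by
    obtain ⟨n, v, -⟩ := T.D_rat
    exact Module.Finite.of_basis v
  -- a functional
  obtain ⟨f, hf, hf'⟩ : ∃ f : Module.Dual ℂ S, f u ≠ 0 ∧ (Pool.Agent.H15.SP.img T.c (M.fil 1)).map f = ⊥ :=
    Submodule.exists_dual_map_eq_bot_of_notMem hu inferInstance
  have hinj : Function.Injective β := by
    rw [← LinearMap.ker_eq_bot, LinearMap.ker_eq_bot']
    intro s hs
    exact hβ.nondeg s fun t => by rw [hs, LinearMap.zero_apply]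
  have hsurj : Function.Surjective β :=
    (LinearMap.injective_iff_surjective_of_finrank_eq_finrank
      (Subspace.dual_finrank_eq (K := ℂ) (V := S)).symm).1 hinj
  obtain ⟨t, rfl⟩ := hsurj f
  have ht : t ∈ top T.c (M.fil 1) := by
    intro y hy
    apply hβ.nondeg
    intro s
    rw [hadj]
    have h1 : β t (T.c y s) ∈ (Pool.Agent.H15.SP.img T.c (M.fil 1)).map (β t) :=
      Submodule.mem_map_of_mem (img_mem hy s)
    rw [hf', Submodule.mem_bot] at h1
    rw [h1, mul_zero]
  obtain ⟨n, θ, v, hθ, hv, hsum⟩ := T.D_rat.expand t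
  have hvt : ∀ i, v i ∈ top T.c (M.fil 1) := by
    intro i
    apply top_of_rat
    intro y hy hy'
    have h1 : ∑ j, θ j • T.c y (v j) = 0 := by
      have h2 := ht y hy'
      rw [hsum, map_sum] at h2
      simpa using h2
    exact T.D_rat.coeff_zero hθ (fun j => T.c_D y hy _ (hv j)) h1 i
  by_contra hcon
  push Not at hcon
  apply hf
  rw [hsum, map_sum, LinearMap.sum_apply]
  refine Finset.sum_eq_zero fun i _ => ?_
  rw [map_smul, LinearMap.smul_apply, hcon (v i) (hv i) (hvt i), smul_zero]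

end Pool.Agent.H15.SP
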