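import Pool.Agent.H15.SP.Defs

/-! Rational structures. -/

set_option autoImplicit false

namespace Pool.Agent.H15.SP

open Module

variable {U : Type} [AddCommGroup U] [Module ℂ U] [Module ℚ U]
variable {W : Type} [AddCommGroup W] [Module ℂ W] [Module ℚ W]

lemma IsRat.extend {L : Submodule ℚ U} (hL : IsRat L) (φ : L →ₗ[ℚ] W) : ∃ Φ : U →ₗ[ℂ] W, ∀ x : L, Φ x = φ x := by
  obtain ⟨n, v, rfl⟩ := hL
  have hv : ∀ i, v i ∈ Submodule.span ℚ (Set.range v) := fun i => Submodule.subset_span ⟨i, rfl⟩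
  refine ⟨v.constr ℂ (fun i => φ ⟨v i, hv i⟩), ?_⟩
  rintro ⟨x, hx⟩
  induction hx using Submodule.span_induction with
  | mem x hx =>
    obtain ⟨i, rfl⟩ := hx
    simp
  | zero => simp [show (⟨0, Submodule.zero_mem _⟩ : Submodule.span ℚ (Set.range v)) = 0 from rfl]
  | add x y hx hy h1 h2 =>
    have e : (⟨x + y, Submodule.add_mem _ hx hy⟩ : Submodule.span ℚ (Set.range v)) = ⟨x, hx⟩ + ⟨y, hy⟩ := rfl
    rw [e, map_add, ← h1, ← h2, ← map_add]
    rfl
  | smul a x hx h1 =>
    have e : (⟨a • x, Submodule.smul_mem _ a hx⟩ : Submodule.span ℚ (Set.range v)) = a • ⟨x, hx⟩ := rfl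
    rw [e, map_smul φ, ← h1]
    change (v.constr ℂ _) (a • x) = a • (v.constr ℂ _) x
    rw [← Rat.cast_smul_eq_qsmul ℂ a x, map_smul, Rat.cast_smul_eq_qsmul]

lemma IsRat.span_eq_top {L : Submodule ℚ U} (hL : IsRat L) : Submodule.span ℂ (L : Set U) = ⊤ := by
  obtain ⟨n, v, rfl⟩ := hL
  rw [eq_top_iff, ← v.span_eq]
  exact Submodule.span_mono Submodule.subset_span

lemma exists_ratPart : ∃ π : ℂ →ₗ[ℚ] ℚ, ∀ q : ℚ, π (q : ℂ) = q := by
  obtain ⟨π, hπ⟩ := LinearMap.exists_leftInverse_of_injective (Algebra.linearMap ℚ ℂ)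
    (LinearMap.ker_eq_bot.2 (algebraMap ℚ ℂ).injective)
  exact ⟨π, fun q => by simpa using LinearMap.congr_fun hπ q⟩

lemma IsRat.exists_dual {L : Submodule ℚ U} (hL : IsRat L) {ι : Type} [Fintype ι] {e : ι → U} (he : ∀ i, e i ∈ L)
    (hind : LinearIndependent ℚ e) : ∃ Φ : U →ₗ[ℂ] (ι → ℂ), (∀ x ∈ L, ∃ q : ι → ℚ, Φ x = fun i => (q i : ℂ)) ∧
      ∀ a : ι → ℂ, Φ (∑ i, a i • e i) = a := by
  classical
  let e' : ι → L := fun i => ⟨e i, he i⟩
  have hind' : LinearIndependent ℚ e' := by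
    apply LinearIndependent.of_comp L.subtype
    exact hind
  obtain ⟨g, hg⟩ := LinearMap.exists_leftInverse_of_injective (Fintype.linearCombination ℚ e')
    (LinearMap.ker_eq_bot.2 (linearIndependent_iff_injective_fintypeLinearCombination.1 hind'))
  let j : (ι → ℚ) →ₗ[ℚ] (ι → ℂ) := LinearMap.pi fun i => (Algebra.linearMap ℚ ℂ).comp (LinearMap.proj i)
  obtain ⟨Φ, hΦ⟩ := hL.extend (j.comp g)
  refine ⟨Φ, fun x hx => ⟨g ⟨x, hx⟩, ?_⟩, ?_⟩
  · rw [hΦ ⟨x, hx⟩]
    funext i
    simp [j]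
  · intro a
    rw [map_sum]
    have h1 : ∀ i, Φ (e i) = Pi.single i 1 := by
      intro i
      have h2 := LinearMap.congr_fun hg (Pi.single i 1)
      rw [LinearMap.comp_apply, Fintype.linearCombination_apply_single, one_smul, LinearMap.id_apply] at h2
      rw [hΦ ⟨e i, he i⟩, LinearMap.comp_apply]
      change j (g (e' i)) = _
      rw [h2]
      funext k
      simp [j, Pi.single_apply]
    simp_rw [map_smul, h1]
    funext k
    simp [Finset.sum_apply, Pi.single_apply]

lemma IsRat.linearIndependent {L : Submodule ℚ U} (hL : IsRat L) {ι : Type} [Fintype ι] {e : ι → U}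
    (he : ∀ i, e i ∈ L) (hind : LinearIndependent ℚ e) : LinearIndependent ℂ e := by
  obtain ⟨Φ, -, hΦ⟩ := hL.exists_dual he hind
  rw [Fintype.linearIndependent_iff]
  intro a ha i
  have := hΦ a
  rw [ha, map_zero] at this
  exact (congrFun this i).symm

lemma IsRat.rat_smul {L : Submodule ℚ U} (hL : IsRat L) {x : U} (hx : x ∈ L) (hx0 : x ≠ 0) {κ : ℂ}
    (hκ : κ • x ∈ L) : ∃ q : ℚ, κ = q := by
  have hind : LinearIndependent ℚ (fun _ : Unit => x) := LinearIndependent.of_subsingleton () hx0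
  obtain ⟨Φ, hr, hΦ⟩ := hL.exists_dual (e := fun _ : Unit => x) (fun _ => hx) hind
  obtain ⟨q, hq⟩ := hr _ hκ
  have h1 := hΦ (fun _ => κ)
  simp only [Finset.univ_unique, PUnit.default_eq_unit, Finset.sum_const, Finset.card_singleton, one_smul] at h1
  rw [h1] at hq
  exact ⟨q (), congrFun hq ()⟩

lemma IsRat.finite {L : Submodule ℚ U} (hL : IsRat L) : Module.Finite ℚ L := by
  obtain ⟨n, v, rfl⟩ := hL
  exact Module.Finite.span_of_finite ℚ (Set.finite_range v)

lemma IsRat.finrank_span [IsScalarTower ℚ ℂ U] {L : Submodule ℚ U} (hL : IsRat L) {W : Submodule ℚ U} (hW : W ≤ L) :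
    finrank ℂ (Submodule.span ℂ (W : Set U)) = finrank ℚ W := by
  have := hL.finite
  have : Module.Finite ℚ W := Submodule.finiteDimensional_of_le hW
  let e := finBasis ℚ W
  have hind : LinearIndependent ℚ (fun i => (e i : U)) :=
    e.linearIndependent.map' W.subtype (Submodule.ker_subtype W)
  have hC := hL.linearIndependent (e := fun i => (e i : U)) (fun i => hW (e i).2) hind
  have hspan : Submodule.span ℂ (W : Set U) = Submodule.span ℂ (Set.range fun i => (e i : U)) := by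
    apply le_antisymm
    · rw [Submodule.span_le]
      intro x hx
      have h1 := e.sum_repr ⟨x, hx⟩
      have h2 : x = ∑ i, ((e.repr ⟨x, hx⟩ i : ℚ) : ℂ) • (e i : U) := by
        have h3 := congrArg (Subtype.val) h1
        simp only [Submodule.coe_sum, Submodule.coe_smul] at h3
        simp_rw [Rat.cast_smul_eq_qsmul]
        exact h3.symm
      rw [h2]
      exact Submodule.sum_mem _ fun i _ => Submodule.smul_mem _ _ (Submodule.subset_span ⟨i, rfl⟩)
    · rw [Submodule.span_le]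
      rintro _ ⟨i, rfl⟩
      exact Submodule.subset_span (e i).2
  rw [hspan, finrank_span_eq_card hC, Fintype.card_fin]

end Pool.Agent.H15.SP
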